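import Pool.Agent.H105.TU.Step

/-!
The bootstrap: the orbits of the model system on the tube, with all its perturbations, stay in the
good region for ever.
-/

set_option autoImplicit false

namespace Pool.Agent.H105.TU

open Set Filter Topology
open Pool.Agent.W774.TL Pool.Agent.TH217.TL

/-- the square of the norm of the transversal momenta -/
noncomputable def rs {m : ℕ} (p : Fin (m + 1) → ℝ) : ℝ := ∑ j : Fin m, p j.succ ^ 2

/-- the good region -/
structure Good {m : ℕ} (δ R : ℝ) (q p : Fin (m + 1) → ℝ) : Prop where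
  y : ∀ j : Fin m, |q j.succ| < δ
  big : R < p 0
  par : rs p / 2 < p 0 - 1

/-- the equations up to errors -/
structure Eqs {m : ℕ} (G : ℝ) (q p q' p' : Fin (m + 1) → ℝ) (t : ℝ) : Prop where
  ex : |q' 0 - hp (q 0) (p 0) t| ≤ 2 * Real.exp (rs p / 2 - p 0)
  ep : |p' 0 - fo (q 0) (p 0) t| ≤ G
  ey : ∀ j : Fin m, |q' j.succ| ≤ (|p j.succ| + 1) * Real.exp (rs p / 2 - p 0)
  er : ∀ j : Fin m, |p' j.succ| ≤ G

lemma late (a b d : ℝ) : ∃ s0 : ℝ, 0 ≤ s0 ∧ ∀ s, s0 ≤ s →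
    a * s ^ 2 + b * s + d ≤ Real.exp (s - 3 / 2) / 2 := by
  have h1 : (fun s : ℝ => a * s ^ 2) =o[atTop] Real.exp :=
    (Real.isLittleO_pow_exp_atTop (n := 2)).const_mul_left a
  have h2 : (fun s : ℝ => b * s) =o[atTop] Real.exp := by
    have := (Real.isLittleO_pow_exp_atTop (n := 1)).const_mul_left b
    simpa using this
  have h3 : (fun s : ℝ => d) =o[atTop] Real.exp := by
    have := (Real.isLittleO_pow_exp_atTop (n := 0)).const_mul_left d
    simpa using this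
  have h4 := ((h1.add h2).add h3).def (c := Real.exp (-3 / 2) / 2) (by positivity)
  obtain ⟨s1, hs1⟩ := eventually_atTop.1 h4
  refine ⟨max s1 0, le_max_right _ _, ?_⟩
  intro s hs
  have h5 := hs1 s ((le_max_left _ _).trans hs)
  rw [Real.norm_eq_abs, Real.norm_eq_abs, abs_of_pos (Real.exp_pos s)] at h5
  have h6 : Real.exp (s - 3 / 2) = Real.exp (-3 / 2) * Real.exp s := by
    rw [← Real.exp_add]
    congr 1
    ring
  rw [h6]
  have := le_abs_self (a * s ^ 2 + b * s + d)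
  linarith

lemma exp_le_three (k : ℕ) : Real.exp k ≤ 3 ^ k := by
  have h1 : Real.exp (k : ℝ) = Real.exp 1 ^ k := by
    rw [← Real.exp_nat_mul, mul_one]
  rw [h1]
  exact pow_le_pow_left₀ (Real.exp_pos 1).le (by have := Real.exp_one_lt_d9; linarith) k

lemma nine_le (k : ℕ) {t : ℝ} (ht : (k : ℝ) ≤ t) : ((3 : ℝ) ^ k) ^ 2 ≤ Real.exp (3 * t) := by
  have h1 : ((3 : ℝ) ^ k) ^ 2 = 9 ^ k := by
    rw [← pow_mul, mul_comm, pow_mul]
    norm_num
  have h2 : (9 : ℝ) ≤ Real.exp 3 := by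
    have h3 := Real.exp_one_gt_d9
    have h4 : Real.exp 3 = Real.exp 1 ^ 3 := by
      rw [← Real.exp_nat_mul]
      norm_num
    rw [h4]
    have h5 : (2.7 : ℝ) ^ 3 ≤ Real.exp 1 ^ 3 := pow_le_pow_left₀ (by norm_num) (by linarith) 3
    norm_num at h5 ⊢
    linarith
  rw [h1]
  calc (9 : ℝ) ^ k ≤ Real.exp 3 ^ k := pow_le_pow_left₀ (by norm_num) h2 k
    _ = Real.exp (3 * k) := by rw [← Real.exp_nat_mul]; ring_nf
    _ ≤ Real.exp (3 * t) := Real.exp_le_exp.2 (by linarith)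

/-- gluing of curves, on a half line. -/
lemma glue3 {a b a' b' : ℝ → ℝ} {T t0 : ℝ} (hab : a T = b T) (hab' : a' T = b' T)
    (ha : ∀ t, t0 ≤ t → t ≤ T → HasDerivAt a (a' t) t) (hb : ∀ t, T ≤ t → HasDerivAt b (b' t) t)
    (t : ℝ) (ht0 : t0 ≤ t) (hT0 : t0 ≤ T) :
    HasDerivAt (fun t => if t ≤ T then a t else b t) (if t ≤ T then a' t else b' t) t := by
  rcases lt_trichotomy t T with h | h | h
  · rw [if_pos h.le]
    refine (ha t ht0 h.le).congr_of_eventuallyEq ?_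
    filter_upwards [Iio_mem_nhds h] with s hs
    rw [if_pos (le_of_lt hs)]
  · subst h
    rw [if_pos le_rfl]
    have h1 : HasDerivWithinAt (fun s => if s ≤ t then a s else b s) (a' t) (Iic t) t := by
      refine (ha t ht0 le_rfl).hasDerivWithinAt.congr ?_ ?_
      · intro s hs
        exact if_pos hs
      · exact if_pos le_rfl
    have h2 : HasDerivWithinAt (fun s => if s ≤ t then a s else b s) (a' t) (Ici t) t := by
      have h3 := (hb t le_rfl).hasDerivWithinAt (s := Ici t)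
      rw [← hab'] at h3
      refine h3.congr ?_ ?_
      · intro s hs
        rcases eq_or_lt_of_le (show t ≤ s from hs) with h4 | h4
        · subst h4
          rw [if_pos le_rfl, hab]
        · exact if_neg (not_le.2 h4)
      · rw [if_pos le_rfl, hab]
    have h5 := h1.union h2
    rw [Iic_union_Ici] at h5
    exact hasDerivWithinAt_univ.1 h5
  · rw [if_neg (not_le.2 h)]
    refine (hb t h.le).congr_of_eventuallyEq ?_
    filter_upwards [Ioi_mem_nhds h] with s hs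
    rw [if_neg (not_le.2 hs)]

/-- a function bounded on `[t0, τ)` is bounded at `τ`. -/
lemma weak {g : ℝ → ℝ} {t0 τ : ℝ} (hg : ContinuousAt g τ) (h : t0 < τ)
    (hs : ∀ s, t0 ≤ s → s < τ → g s ≤ 0) : g τ ≤ 0 := by
  have h1 : Tendsto g (𝓝[<] τ) (𝓝 (g τ)) := hg.tendsto.mono_left nhdsWithin_le_nhds
  refine le_of_tendsto h1 ?_
  filter_upwards [Ioo_mem_nhdsLT h] with s hs'
  exact hs s hs'.1.le hs'.2

/-- the weak form of the bounds at a time `s` -/
structure W {m : ℕ} (δ G t0 : ℝ) (q p : Fin (m + 1) → ℝ) (s : ℝ) : Prop where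
  y : ∀ j : Fin m, |q j.succ| ≤ 3 / 4 * δ
  r : ∀ j : Fin m, |p j.succ| ≤ 2 + G * (s - t0)
  b : Real.exp (s - 3 / 2) / 2 ≤ p 0

lemma rs_le {m : ℕ} {p : Fin (m + 1) → ℝ} {B : ℝ} (h : ∀ j : Fin m, |p j.succ| ≤ B) :
    rs p ≤ m * B ^ 2 := by
  unfold rs
  have : ∑ j : Fin m, p j.succ ^ 2 ≤ ∑ _j : Fin m, B ^ 2 :=
    Finset.sum_le_sum fun j _ => by
      rw [← sq_abs]
      exact pow_le_pow_left₀ (abs_nonneg _) (h j) 2
  simpa using this

/-- the constants -/
lemma late2 (m : ℕ) {G c : ℝ} (R : ℝ) (hG : 0 ≤ G) (hc : 0 < c) : ∃ s0 : ℝ, 0 ≤ s0 ∧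
    ∀ t0 s : ℝ, s0 ≤ t0 → t0 ≤ s → ∀ (δ : ℝ) (q p : Fin (m + 1) → ℝ), 0 < δ → W δ G t0 q p s →
      Good δ R q p ∧ (3 + G * (s - t0)) * Real.exp (rs p / 2 - p 0) ≤ c * Real.exp (-3 * s) := by
  obtain ⟨s0, hs0, h⟩ := late (m * G ^ 2) (4 * m * G + G + 3)
    (4 * m + 3 + (|R| + 2 + |Real.log c|))
  refine ⟨s0, hs0, ?_⟩
  intro t0 s ht0 hs δ q p hδ hW
  have h1 := h s (ht0.trans hs)
  have ht00 : 0 ≤ t0 := hs0.trans ht0
  have hm : (0 : ℝ) ≤ m := Nat.cast_nonneg m
  have h2 : rs p ≤ m * (2 + G * s) ^ 2 := by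
    apply rs_le
    intro j
    refine (hW.r j).trans ?_
    nlinarith
  have h3 : m * (2 + G * s) ^ 2 + (3 + G * s) + 3 * s + (|R| + 2 + |Real.log c|) ≤ p 0 := by
    refine le_trans (le_of_eq ?_) (h1.trans hW.b)
    ring
  have hs' : 0 ≤ s := ht00.trans hs
  have hGs : 0 ≤ G * s := by positivity
  have h4 : 0 ≤ m * (2 + G * s) ^ 2 := by positivity
  have h5 := le_abs_self R
  have h6 := abs_nonneg R
  have h7 := abs_nonneg (Real.log c)
  refine ⟨⟨fun j => (hW.y j).trans_lt (by linarith), by linarith, by linarith⟩, ?_⟩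
  have h8 : 3 + G * (s - t0) ≤ Real.exp (3 + G * s) := by
    have := Real.add_one_le_exp (3 + G * s)
    nlinarith
  have h9 : c * Real.exp (-3 * s) = Real.exp (Real.log c + -3 * s) := by
    rw [Real.exp_add, Real.exp_log hc]
  rw [h9]
  calc (3 + G * (s - t0)) * Real.exp (rs p / 2 - p 0) ≤
        Real.exp (3 + G * s) * Real.exp (rs p / 2 - p 0) :=
        mul_le_mul_of_nonneg_right h8 (Real.exp_pos _).le
    _ = Real.exp (3 + G * s + (rs p / 2 - p 0)) := by rw [← Real.exp_add]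
    _ ≤ _ := by
        apply Real.exp_le_exp.2
        have := neg_abs_le (Real.log c)
        linarith

/-- the improved bounds. -/
lemma improve {m : ℕ} {δ G c : ℝ} (hδ : 0 < δ) (hG : 0 ≤ G) (hc4 : c ≤ 1 / 4)
    (hcδ : c < δ / 4) (hc0 : 0 < c) {R : ℝ}
    {k1 : ℕ} {t0 : ℝ} (ht0 : t0 = (k1 : ℝ) + 1 / 2)
    (hlate : ∀ s : ℝ, t0 ≤ s → ∀ (q p : Fin (m + 1) → ℝ), W δ G t0 q p s →
      Good δ R q p ∧ (3 + G * (s - t0)) * Real.exp (rs p / 2 - p 0) ≤ c * Real.exp (-3 * s))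
    (hcore : ∀ K : ℕ, ∀ x p x' p' : ℝ → ℝ, (∀ k : ℕ, k1 ≤ k → k ≤ K → Approx G x p x' p' k) →
      ∀ N : ℤ, |x (k1 + 1 / 2) - k1 * (k1 + 1 / 2) - N| ≤ 1 / 1000 →
      |p (k1 + 1 / 2) - 3 ^ k1| ≤ 3 ^ k1 / 1000 →
      ∀ k : ℕ, k1 ≤ k → k ≤ K → ∀ t ∈ Icc ((k : ℝ) + 1 / 2) (k + 3 / 2),
        (k : ℝ) - 1 ≤ x' t ∧ 9 / 10 * 3 ^ k ≤ p t)
    {q p q' p' : ℝ → Fin (m + 1) → ℝ} {T : ℝ} (hT : t0 ≤ T)
    (hd : ∀ t, t0 ≤ t → t ≤ T → ∀ i, HasDerivAt (fun s => q s i) (q' t i) t ∧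
      HasDerivAt (fun s => p s i) (p' t i) t)
    (he : ∀ t, t0 ≤ t → t ≤ T → Good δ R (q t) (p t) → Eqs G (q t) (p t) (q' t) (p' t) t)
    (hx0 : |q t0 0 - k1 * t0| ≤ 1 / 1000) (hp0 : |p t0 0 - 3 ^ k1| ≤ 3 ^ k1 / 1000)
    (hy0 : ∀ j : Fin m, |q t0 j.succ| ≤ δ / 2) (hr0 : ∀ j : Fin m, |p t0 j.succ| ≤ 1)
    (hW : ∀ t, t0 ≤ t → t ≤ T → W δ G t0 (q t) (p t) t) :
    (∀ j : Fin m, |q T j.succ| < 3 / 4 * δ) ∧
      (∀ j : Fin m, |p T j.succ| < 2 + G * (T - t0)) ∧
      Real.exp (T - 3 / 2) / 2 < p T 0 ∧ T - 5 / 2 ≤ q' T 0 := by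
  have hE : ∀ t, t0 ≤ t → t ≤ T → Eqs G (q t) (p t) (q' t) (p' t) t ∧
      (3 + G * (t - t0)) * Real.exp (rs (p t) / 2 - p t 0) ≤ c * Real.exp (-3 * t) := by
    intro t h1 h2
    obtain ⟨h3, h4⟩ := hlate t h1 _ _ (hW t h1 h2)
    exact ⟨he t h1 h2 h3, h4⟩
  have ht00 : 0 ≤ t0 := by rw [ht0]; positivity
  refine ⟨?_, ?_, ?_⟩
  · intro j
    have hb : ∀ t, t0 ≤ t → t ≤ T → |q' t j.succ| ≤ c * Real.exp (-t) := by
      intro t h1 h2
      obtain ⟨h3, h4⟩ := hE t h1 h2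
      have h5 := (hW t h1 h2).r j
      calc |q' t j.succ| ≤ (|p t j.succ| + 1) * Real.exp (rs (p t) / 2 - p t 0) := h3.ey j
        _ ≤ (3 + G * (t - t0)) * Real.exp (rs (p t) / 2 - p t 0) :=
            mul_le_mul_of_nonneg_right (by linarith) (Real.exp_pos _).le
        _ ≤ c * Real.exp (-3 * t) := h4
        _ ≤ c * Real.exp (-t) :=
            mul_le_mul_of_nonneg_left (Real.exp_le_exp.2 (by linarith)) hc0.le
    have key : ∀ ε : ℝ, (ε = 1 ∨ ε = -1) → ε * q T j.succ ≤ ε * q t0 j.succ + c := by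
      intro ε hε
      have hm : AntitoneOn (fun t => ε * q t j.succ + c * Real.exp (-t)) (Icc t0 T) := by
        have hdd : ∀ t, t0 ≤ t → t ≤ T → HasDerivAt (fun t => ε * q t j.succ + c * Real.exp (-t))
            (ε * q' t j.succ + c * (Real.exp (-t) * -1)) t := by
          intro t h1 h2
          exact ((hd t h1 h2 j.succ).1.const_mul ε).add
            (((hasDerivAt_neg t).exp).const_mul c)
        refine antitoneOn_of_hasDerivWithinAt_nonpos (convex_Icc t0 T)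
          (f' := fun t => ε * q' t j.succ + c * (Real.exp (-t) * -1)) ?_ ?_ ?_
        · intro t ht
          exact (hdd t ht.1 ht.2).continuousAt.continuousWithinAt
        · intro t ht
          rw [interior_Icc] at ht
          exact (hdd t ht.1.le ht.2.le).hasDerivWithinAt
        · intro t ht
          rw [interior_Icc] at ht
          have h1 := abs_le.1 (hb t ht.1.le ht.2.le)
          rcases hε with h | h <;> subst h <;> nlinarith [h1.1, h1.2]
      have h1 := hm (left_mem_Icc.2 hT) (right_mem_Icc.2 hT) hT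
      simp only at h1
      have h2 : 0 < c * Real.exp (-T) := by positivity
      have h3 : c * Real.exp (-t0) ≤ c * 1 :=
        mul_le_mul_of_nonneg_left (Real.exp_le_one_iff.2 (by linarith)) hc0.le
      linarith
    have h1 := key 1 (Or.inl rfl)
    have h2 := key (-1) (Or.inr rfl)
    have h3 := abs_le.1 (hy0 j)
    rw [abs_lt]
    constructor <;> linarith [h3.1, h3.2]
  · intro j
    have hb : |p T j.succ - p t0 j.succ| ≤ G * (T - t0) := by
      have h1 := (convex_Icc t0 T).norm_image_sub_le_of_norm_hasDerivWithin_le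
        (f := fun t => p t j.succ) (f' := fun t => p' t j.succ) (C := G)
        (fun t ht => (hd t ht.1 ht.2 j.succ).2.hasDerivWithinAt)
        (fun t ht => (hE t ht.1 ht.2).1.er j) (left_mem_Icc.2 hT) (right_mem_Icc.2 hT)
      rw [Real.norm_eq_abs, Real.norm_eq_abs, abs_of_nonneg (by linarith : 0 ≤ T - t0)] at h1
      exact h1
    have h2 := abs_le.1 hb
    have h3 := abs_le.1 (hr0 j)
    rw [abs_lt]
    constructor <;> linarith [h2.1, h2.2, h3.1, h3.2]
  · have herr : ∀ t, t0 ≤ t → t ≤ T → ∀ k : ℕ, (k : ℝ) + 1 / 2 ≤ t →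
        |q' t 0 - hp (q t 0) (p t 0) t| ≤ 1 / (2 * ((3 : ℝ) ^ k) ^ 2) ∧
        |p' t 0 - fo (q t 0) (p t 0) t| ≤ G := by
      intro t h1 h2 k hk
      obtain ⟨h3, h4⟩ := hE t h1 h2
      refine ⟨?_, h3.ep⟩
      have h5 : 0 ≤ G * (t - t0) := mul_nonneg hG (by linarith)
      have h6 := Real.exp_pos (rs (p t) / 2 - p t 0)
      have h7 : 2 * Real.exp (rs (p t) / 2 - p t 0) ≤ c * Real.exp (-3 * t) := by nlinarith
      refine h3.ex.trans (h7.trans ?_)
      have h8 := nine_le k (t := t) (by linarith)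
      have h9 : (0 : ℝ) < ((3 : ℝ) ^ k) ^ 2 := by positivity
      rw [le_div_iff₀ (by positivity)]
      have h10 : Real.exp (-3 * t) * Real.exp (3 * t) = 1 := by
        rw [← Real.exp_add]
        simp
      have h11 := Real.exp_pos (-3 * t)
      calc c * Real.exp (-3 * t) * (2 * ((3 : ℝ) ^ k) ^ 2) ≤
            c * Real.exp (-3 * t) * (2 * Real.exp (3 * t)) :=
            mul_le_mul_of_nonneg_left (by linarith) (by positivity)
        _ = 2 * c * (Real.exp (-3 * t) * Real.exp (3 * t)) := by ring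
        _ ≤ 1 := by rw [h10]; linarith
    obtain ⟨X2, P2, hX2, hP2, hs2⟩ := ext_sol (q' T 0 - hp (q T 0) (p T 0) T)
      (p' T 0 - fo (q T 0) (p T 0) T) T (q T 0) (p T 0)
    set α : ℝ := q' T 0 - hp (q T 0) (p T 0) T with hα
    set β : ℝ := p' T 0 - fo (q T 0) (p T 0) T with hβ
    have hx := glue3 (a := fun t => q t 0) (b := X2) (a' := fun t => q' t 0)
      (b' := fun t => hp (X2 t) (P2 t) t + α) (T := T) (t0 := t0) hX2.symm
      (by simp only [hX2, hP2, hα]; ring)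
      (fun t h1 h2 => (hd t h1 h2 0).1) (fun t _ => (hs2 t).1)
    have hp' := glue3 (a := fun t => p t 0) (b := P2) (a' := fun t => p' t 0)
      (b' := fun t => fo (X2 t) (P2 t) t + β) (T := T) (t0 := t0) hP2.symm
      (by simp only [hX2, hP2, hβ]; ring)
      (fun t h1 h2 => (hd t h1 h2 0).2) (fun t _ => (hs2 t).2)
    set K : ℕ := ⌊T - 1 / 2⌋₊ with hK
    have hK1 : (K : ℝ) ≤ T - 1 / 2 := Nat.floor_le (by linarith [hT, ht0, Nat.cast_nonneg (α := ℝ) k1])
    have hK2 : T - 1 / 2 < (K : ℝ) + 1 := Nat.lt_floor_add_one _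
    have hK3 : k1 ≤ K := Nat.le_floor (by linarith)
    have hc := hcore K _ _ _ _ (fun k hk hkK t ht => ⟨hx t (by
        have hkr : (k1 : ℝ) ≤ k := by exact_mod_cast hk
        linarith [ht.1]) hT, hp' t (by
        have hkr : (k1 : ℝ) ≤ k := by exact_mod_cast hk
        linarith [ht.1]) hT, by
      have hkr : (k1 : ℝ) ≤ k := by exact_mod_cast hk
      by_cases htT : t ≤ T
      · simp only [if_pos htT]
        exact herr t (by linarith [ht.1]) htT k ht.1
      · simp only [if_neg htT]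
        have hTt : T < t := not_le.1 htT
        have hkK' : K = k := by
          have h1 : (K : ℝ) < k + 1 := by linarith [ht.2]
          have h2 : K < k + 1 := by exact_mod_cast h1
          omega
        have h3 := herr T hT le_rfl k (by rw [← hkK']; linarith)
        simpa using h3⟩) 0
      (by
        rw [← ht0]
        simp only [if_pos hT]
        simpa using hx0)
      (by
        rw [← ht0]
        simp only [if_pos hT]
        exact hp0)
      K hK3 le_rfl T ⟨by linarith, by linarith⟩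
    simp only [if_pos le_rfl] at hc
    obtain ⟨c1, c2⟩ := hc
    refine ⟨?_, by linarith⟩
    have h1 : Real.exp (T - 3 / 2) ≤ Real.exp K := Real.exp_le_exp.2 (by linarith)
    have h2 := exp_le_three K
    have h3 := Real.exp_pos (T - 3 / 2)
    linarith

/-- **The bootstrap.** -/
theorem boot (m : ℕ) {δ G : ℝ} (hδ : 0 < δ) (hG : 0 ≤ G) (R : ℝ) : ∃ k0 : ℕ, ∀ k1 : ℕ, k0 ≤ k1 →
    ∀ t0 : ℝ, t0 = (k1 : ℝ) + 1 / 2 → ∀ (T : ℝ) (q p q' p' : ℝ → Fin (m + 1) → ℝ),
    (∀ t, t0 ≤ t → t < T → ∀ i, HasDerivAt (fun s => q s i) (q' t i) t ∧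
      HasDerivAt (fun s => p s i) (p' t i) t) →
    (∀ t, t0 ≤ t → t < T → Good δ R (q t) (p t) → Eqs G (q t) (p t) (q' t) (p' t) t) →
    |q t0 0 - k1 * t0| ≤ 1 / 1000 → |p t0 0 - 3 ^ k1| ≤ 3 ^ k1 / 1000 →
    (∀ j : Fin m, |q t0 j.succ| ≤ δ / 2) → (∀ j : Fin m, |p t0 j.succ| ≤ 1) →
    ∀ t, t0 ≤ t → t < T → Good δ R (q t) (p t) ∧ t - 5 / 2 ≤ q' t 0 := by
  set c : ℝ := min (1 / 4) (δ / 8) with hc
  have hc0 : 0 < c := lt_min (by norm_num) (by linarith)
  have hc4 : c ≤ 1 / 4 := min_le_left _ _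
  have hcδ : c < δ / 4 := (min_le_right _ _).trans_lt (by linarith)
  obtain ⟨s0, hs0, hl⟩ := late2 m R hG hc0
  obtain ⟨k2, hk2⟩ := core4 G hG
  refine ⟨max k2 ⌈s0⌉₊, ?_⟩
  intro k1 hk1 t0 ht0 T q p q' p' hd he hx0 hp0 hy0 hr0
  have hs0t : s0 ≤ t0 := by
    have h1 : s0 ≤ ⌈s0⌉₊ := Nat.le_ceil s0
    have h2 : (⌈s0⌉₊ : ℝ) ≤ k1 := by exact_mod_cast (le_max_right _ _).trans hk1
    linarith
  have hcore := hk2 k1 ((le_max_left _ _).trans hk1)
  have himp : ∀ τ, t0 ≤ τ → τ < T → (∀ t, t0 ≤ t → t ≤ τ → W δ G t0 (q t) (p t) t) →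
      (∀ j : Fin m, |q τ j.succ| < 3 / 4 * δ) ∧
      (∀ j : Fin m, |p τ j.succ| < 2 + G * (τ - t0)) ∧
      Real.exp (τ - 3 / 2) / 2 < p τ 0 ∧ τ - 5 / 2 ≤ q' τ 0 := by
    intro τ h1 h2 h3
    exact improve hδ hG hc4 hcδ hc0 ht0 (fun s hs q p hW => hl t0 s hs0t hs δ q p hδ hW) hcore h1
      (fun t ht ht' => hd t ht (ht'.trans_lt h2)) (fun t ht ht' => he t ht (ht'.trans_lt h2))
      hx0 hp0 hy0 hr0 h3
  have hall : ∀ τ, t0 ≤ τ → τ < T → W δ G t0 (q τ) (p τ) τ := by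
    by_contra hcon
    push Not at hcon
    obtain ⟨τ1, h1, h2, h3⟩ := hcon
    -- the closed set of the bad times
    set C : Set ℝ := Icc t0 τ1 ∩ {t | (∃ j : Fin m, 3 / 4 * δ ≤ |q t j.succ|) ∨
      (∃ j : Fin m, 2 + G * (t - t0) ≤ |p t j.succ|) ∨ p t 0 ≤ Real.exp (t - 3 / 2) / 2} with hC
    have hqc : ∀ i, ContinuousOn (fun s => q s i) (Icc t0 τ1) := fun i t ht =>
      (hd t ht.1 (ht.2.trans_lt h2) i).1.continuousAt.continuousWithinAt
    have hpc : ∀ i, ContinuousOn (fun s => p s i) (Icc t0 τ1) := fun i t ht =>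
      (hd t ht.1 (ht.2.trans_lt h2) i).2.continuousAt.continuousWithinAt
    have hCc : IsCompact C := by
      apply isCompact_Icc.of_isClosed_subset _ inter_subset_left
      have e : C = (⋃ j : Fin m, Icc t0 τ1 ∩ {t | 3 / 4 * δ ≤ |q t j.succ|}) ∪
          ((⋃ j : Fin m, Icc t0 τ1 ∩ {t | 2 + G * (t - t0) ≤ |p t j.succ|}) ∪
            (Icc t0 τ1 ∩ {t | p t 0 ≤ Real.exp (t - 3 / 2) / 2})) := by
        rw [hC]
        ext t
        constructor
        · rintro ⟨h4, ⟨j, hj⟩ | ⟨j, hj⟩ | hj⟩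
          · exact Or.inl (mem_iUnion.2 ⟨j, h4, hj⟩)
          · exact Or.inr (Or.inl (mem_iUnion.2 ⟨j, h4, hj⟩))
          · exact Or.inr (Or.inr ⟨h4, hj⟩)
        · rintro (h | h | h)
          · obtain ⟨j, h4, hj⟩ := mem_iUnion.1 h
            exact ⟨h4, Or.inl ⟨j, hj⟩⟩
          · obtain ⟨j, h4, hj⟩ := mem_iUnion.1 h
            exact ⟨h4, Or.inr (Or.inl ⟨j, hj⟩)⟩
          · exact ⟨h.1, Or.inr (Or.inr h.2)⟩
      change IsClosed C
      rw [e]
      refine IsClosed.union (isClosed_iUnion_of_finite fun j => ?_)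
        (IsClosed.union (isClosed_iUnion_of_finite fun j => ?_) ?_)
      · exact isClosed_Icc.isClosed_le continuousOn_const (hqc j.succ).abs
      · exact isClosed_Icc.isClosed_le (by fun_prop) (hpc j.succ).abs
      · exact isClosed_Icc.isClosed_le (hpc 0) (by fun_prop)
    have hCn : C.Nonempty := by
      refine ⟨τ1, ⟨⟨h1, le_rfl⟩, ?_⟩⟩
      by_contra h4
      simp only [mem_setOf_eq, not_or, not_exists, not_le] at h4
      exact h3 ⟨fun j => (h4.1 j).le, fun j => (h4.2.1 j).le, h4.2.2.le⟩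
    obtain ⟨τ, hτC, hτ⟩ := hCc.exists_isLeast hCn
    have hτ0 : t0 ≤ τ := hτC.1.1
    have hτT : τ < T := hτC.1.2.trans_lt h2
    have hbefore : ∀ t, t0 ≤ t → t < τ → W δ G t0 (q t) (p t) t := by
      intro t h4 h5
      by_contra h6
      have h7 : t ∈ C := by
        refine ⟨⟨h4, h5.le.trans hτC.1.2⟩, ?_⟩
        by_contra h8
        simp only [mem_setOf_eq, not_or, not_exists, not_le] at h8
        exact h6 ⟨fun j => (h8.1 j).le, fun j => (h8.2.1 j).le, h8.2.2.le⟩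
      exact absurd (hτ h7) (not_le.2 h5)
    have hat : W δ G t0 (q τ) (p τ) τ := by
      rcases eq_or_lt_of_le hτ0 with h4 | h4
      · rw [← h4]
        refine ⟨fun j => (hy0 j).trans (by linarith), fun j => (hr0 j).trans (by simp), ?_⟩
        have h5 := (abs_le.1 hp0).1
        have h6 := exp_le_three k1
        have h7 : Real.exp (t0 - 3 / 2) ≤ Real.exp k1 := Real.exp_le_exp.2 (by linarith)
        have h8 := Real.exp_pos (t0 - 3 / 2)
        linarith
      · have cq : ∀ i, ContinuousAt (fun s => q s i) τ := fun i => (hd τ hτ0 hτT i).1.continuousAt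
        have cp : ∀ i, ContinuousAt (fun s => p s i) τ := fun i => (hd τ hτ0 hτT i).2.continuousAt
        refine ⟨fun j => ?_, fun j => ?_, ?_⟩
        · have := weak (g := fun s => |q s j.succ| - 3 / 4 * δ) ((cq j.succ).abs.sub
            continuousAt_const) h4 (fun s h5 h6 => by
              have := (hbefore s h5 h6).y j
              linarith)
          linarith
        · have := weak (g := fun s => |p s j.succ| - (2 + G * (s - t0))) ((cp j.succ).abs.sub
            (by fun_prop)) h4 (fun s h5 h6 => by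
              have := (hbefore s h5 h6).r j
              linarith)
          linarith
        · have := weak (g := fun s => Real.exp (s - 3 / 2) / 2 - p s 0) ((by fun_prop :
            ContinuousAt (fun s => Real.exp (s - 3 / 2) / 2) τ).sub (cp 0)) h4
            (fun s h5 h6 => by
              have := (hbefore s h5 h6).b
              linarith)
          linarith
    obtain ⟨i1, i2, i3, -⟩ := himp τ hτ0 hτT (fun t h4 h5 => by
      rcases eq_or_lt_of_le h5 with h6 | h6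
      · rw [h6]; exact hat
      · exact hbefore t h4 h6)
    rcases hτC.2 with ⟨j, hj⟩ | ⟨j, hj⟩ | hj
    · exact absurd (i1 j) (not_lt.2 hj)
    · exact absurd (i2 j) (not_lt.2 hj)
    · exact absurd i3 (not_lt.2 hj)
  intro t h1 h2
  refine ⟨(hl t0 t hs0t h1 δ _ _ hδ (hall t h1 h2)).1, ?_⟩
  exact (himp t h1 h2 (fun s h3 h4 => hall s h3 (h4.trans_lt h2))).2.2.2

end Pool.Agent.H105.TU
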