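import Mathlib

/-!
# Time-periodic Hamiltonians on the cotangent bundle of a tube around a circle

The positions are `q = (q 0, q 1, …, q m)`, where `q 0` is an angle in `𝕋 = ℝ/ℤ` and
`(q 1, …, q m)` are real coordinates: this is the solid torus `𝕋 × ℝ^m`, a tubular neighbourhood of
a circle in a manifold of dimension `m + 1`.
-/

set_option autoImplicit false

namespace Pool.Agent.H105.TU

/-- Functions of the positions `q`, the momenta `p` and the time `t`. -/
abbrev Ham (m : ℕ) : Type := (Fin (m + 1) → ℝ) → (Fin (m + 1) → ℝ) → ℝ → ℝ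

variable {m : ℕ}

/-- The position `q` is in the tube `{|q_1| < δ, …, |q_m| < δ}` around the circle. -/
def InTube (δ : ℝ) (q : Fin (m + 1) → ℝ) : Prop := ∀ j : Fin m, |q j.succ| < δ

/-- `H` is a `C^k` function of `(q, p, t)`. -/
def IsC (k : ℕ∞) (H : Ham m) : Prop :=
  ContDiff ℝ k (fun z : (Fin (m + 1) → ℝ) × (Fin (m + 1) → ℝ) × ℝ => H z.1 z.2.1 z.2.2)

/-- The partial derivative `∂H/∂p_i`. -/
noncomputable def dp (H : Ham m) (i : Fin (m + 1)) (q p : Fin (m + 1) → ℝ) (t : ℝ) : ℝ :=
  deriv (fun s => H q (Function.update p i s) t) (p i)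

/-- The partial derivative `∂H/∂q_i`. -/
noncomputable def dq (H : Ham m) (i : Fin (m + 1)) (q p : Fin (m + 1) → ℝ) (t : ℝ) : ℝ :=
  deriv (fun s => H (Function.update q i s) p t) (q i)

/-- `C^k` Hamiltonians on `T*(𝕋 × ℝ^m) × 𝕋`, periodic in the angle `q 0` and in the time, with
positive definite fibre Hessian, superlinear in `p` (uniformly over bounded tubes): the Legendre
duals of the Tonelli Lagrangians on `T(𝕋 × ℝ^m) × 𝕋`, but for the completeness of the flow, which
is not required (see `EnergyBound`). -/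
structure TonelliHam (k : ℕ∞) (H : Ham m) : Prop where
  smooth : IsC k H
  periodic : ∀ (q p : Fin (m + 1) → ℝ) (t : ℝ) (a b : ℤ),
    H (Function.update q 0 (q 0 + a)) p (t + b) = H q p t
  convex : ∀ (q p : Fin (m + 1) → ℝ) (t : ℝ) (w : Fin (m + 1) → ℝ), w ≠ 0 →
    0 < deriv (deriv (fun s : ℝ => H q (p + s • w) t)) 0
  superlinear : ∀ r K : ℝ, ∃ B : ℝ, ∀ (q p : Fin (m + 1) → ℝ) (t : ℝ), InTube r q →
    K * ‖p‖ - B ≤ H q p t

/-- `(q(t), p(t))` satisfies Hamilton's equations `q' = ∂H/∂p`, `p' = -∂H/∂q` at the times in `S`. -/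
def Solution (H : Ham m) (q p : ℝ → Fin (m + 1) → ℝ) (S : Set ℝ) : Prop :=
  ∀ t ∈ S, ∀ i : Fin (m + 1), HasDerivAt (fun s => q s i) (dp H i (q t) (p t) t) t ∧
    HasDerivAt (fun s => p s i) (-dq H i (q t) (p t) t) t

/-- The partial derivative `∂H/∂t`. -/
noncomputable def dt (H : Ham m) (q p : Fin (m + 1) → ℝ) (t : ℝ) : ℝ := deriv (fun s => H q p s) t

/-- `|∂H/∂t| ≤ C (1 + |H|)` over every bounded tube. Over a compact manifold this condition and the
superlinearity imply that the flow is complete (Gronwall's inequality for `H` along the orbits). -/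
def EnergyBound (H : Ham m) : Prop :=
  ∀ r : ℝ, ∃ C : ℝ, ∀ (q p : Fin (m + 1) → ℝ) (t : ℝ), InTube r q →
    |dt H q p t| ≤ C * (1 + |H q p t|)

/-- Over the tube of radius `δ` the derivatives of `H'` and `H` in the momenta differ by at most
`exp (-‖p‖)` and those in the positions by at most `G`. -/
def Near (δ G : ℝ) (H H' : Ham m) : Prop :=
  ∀ (q p : Fin (m + 1) → ℝ) (t : ℝ), InTube δ q → ∀ i : Fin (m + 1),
    |dp H' i q p t - dp H i q p t| ≤ Real.exp (-‖p‖) ∧ |dq H' i q p t - dq H i q p t| ≤ G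

end Pool.Agent.H105.TU
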