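import Pool.Agent.H105.TU.Mod

/-!
Dynamics: the equations in the inner tube, existence of solutions, the main theorem.
-/

set_option autoImplicit false

namespace Pool.Agent.H105.TU

open Set Filter Topology
open Pool.Agent.W774.TL (h hp fo smooth der sum_thm)
open Pool.Agent.TH217.TL
open scoped ContDiff

variable {m : ℕ}

lemma isOpen_tube (δ : ℝ) : IsOpen {q : Fin (m + 1) → ℝ | InTube δ q} := by
  have e : {q : Fin (m + 1) → ℝ | InTube δ q} = ⋂ j : Fin m, {q | |q j.succ| < δ} := by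
    ext q
    simp [InTube]
  rw [e]
  refine isOpen_iInter_of_finite fun j => ?_
  exact isOpen_lt (by fun_prop) continuous_const

/-! ### derivatives of the model -/

lemma YM_H1 (q p w : Fin (m + 1) → ℝ) (t : ℝ) :
    fderiv ℝ (UU (YM (m := m))) (q, p, t) (0, w, 0) =
      hp (q 0) (p 0) t * w 0 + Real.exp (rs p / 2 - p 0) * (∑ j : Fin m, p j.succ * w j.succ - w 0) := by
  have h0 := H1_hd (YM_cd (m := m) |>.of_le (two_le le_top)) (q, p, t) w 0
  simp only [zero_smul, add_zero] at h0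
  have h1 : HasDerivAt (fun s : ℝ => p 0 + s * w 0) (w 0) 0 := by
    simpa using ((hasDerivAt_id (0 : ℝ)).mul_const (w 0)).const_add (p 0)
  have h2 : HasDerivAt (fun s => h (q 0) s t) (hp (q 0) (p 0) t) (p 0 + 0 * w 0) := by
    simpa using Pool.Agent.W774.TL.M2.hp_deriv der (q 0) (p 0) t
  have h3 := h2.comp (0 : ℝ) h1
  have h4 := ((rs_line p w 0).div_const 2).fun_sub h1
  have h5 := h3.fun_add h4.exp
  have e : (fun s : ℝ => UU (YM (m := m)) ((q, p, t) + s • (0, w, 0))) =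
      fun s => ((fun s => h (q 0) s t) ∘ fun s : ℝ => p 0 + s * w 0) s +
        Real.exp (rs (p + s • w) / 2 - (p 0 + s * w 0)) := by
    funext s
    simp [UU, YM]
  rw [e] at h0
  have h6 := h0.unique h5
  change H1 (UU (YM (m := m))) (q, p, t) w = _
  rw [h6]
  simp only [zero_smul, add_zero, zero_mul]
  have h7 : (∑ j : Fin m, 2 * p j.succ * w j.succ) / 2 = ∑ j : Fin m, p j.succ * w j.succ := by
    rw [Finset.sum_div]
    exact Finset.sum_congr rfl fun j _ => by ring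
  rw [h7]

lemma YM_dp (i : Fin (m + 1)) (q p : Fin (m + 1) → ℝ) (t : ℝ) : dp YM i q p t =
    hp (q 0) (p 0) t * (Pi.single i 1 : Fin (m + 1) → ℝ) 0 + Real.exp (rs p / 2 - p 0) *
      (∑ j : Fin m, p j.succ * (Pi.single i 1 : Fin (m + 1) → ℝ) j.succ -
        (Pi.single i 1 : Fin (m + 1) → ℝ) 0) := by
  rw [← YM_H1]
  exact Lv_eq (L := YM) (YM_cd (m := m) |>.of_le (two_le le_top)) i q p t

lemma YM_dp0 (q p : Fin (m + 1) → ℝ) (t : ℝ) :
    dp YM 0 q p t = hp (q 0) (p 0) t - Real.exp (rs p / 2 - p 0) := by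
  rw [YM_dp]
  have : ∑ j : Fin m, p j.succ * (Pi.single (0 : Fin (m + 1)) (1 : ℝ) : Fin (m + 1) → ℝ) j.succ = 0 :=
    Finset.sum_eq_zero fun j _ => by
      rw [Pi.single_eq_of_ne (Fin.succ_ne_zero j), mul_zero]
  rw [this, Pi.single_eq_same]
  ring

lemma YM_dps (j : Fin m) (q p : Fin (m + 1) → ℝ) (t : ℝ) :
    dp YM j.succ q p t = p j.succ * Real.exp (rs p / 2 - p 0) := by
  rw [YM_dp]
  have : ∑ l : Fin m, p l.succ * (Pi.single j.succ (1 : ℝ) : Fin (m + 1) → ℝ) l.succ = p j.succ := by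
    rw [Finset.sum_eq_single j]
    · simp
    · intro l _ hl
      rw [Pi.single_eq_of_ne (fun h => hl (Fin.succ_injective _ h)), mul_zero]
    · intro h
      exact absurd (Finset.mem_univ j) h
  rw [this, Pi.single_eq_of_ne (Fin.succ_ne_zero j).symm]
  ring

lemma YM_dq0 (q p : Fin (m + 1) → ℝ) (t : ℝ) : dq YM 0 q p t = -fo (q 0) (p 0) t := by
  unfold dq
  have e : (fun s => YM (Function.update q 0 s) p t) =
      fun s => h s (p 0) t + Real.exp (rs p / 2 - p 0) := by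
    funext s
    simp [YM]
  rw [e]
  exact ((Pool.Agent.W774.TL.M2.hx_deriv der (q 0) (p 0) t).add_const _).deriv

lemma YM_dqs (j : Fin m) (q p : Fin (m + 1) → ℝ) (t : ℝ) : dq YM j.succ q p t = 0 := by
  unfold dq
  have e : (fun s => YM (Function.update q j.succ s) p t) = fun _ => YM q p t := by
    funext s
    unfold YM
    rw [Function.update_of_ne (Fin.succ_ne_zero j).symm]
  rw [e]
  exact deriv_const _ _

/-! ### the equations in the inner tube -/

lemma eqs {H H' : Ham m} {δ G δ1 R1 c : ℝ} (hδ1 : δ1 ≤ δ)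
    (hH : ∀ q p t, InTube δ1 q → R1 ≤ ‖p‖ → H q p t = YM q p t + c)
    (hn : Near δ G H H') {q p : Fin (m + 1) → ℝ} (t : ℝ) (hq : InTube δ1 q) (hp1 : R1 < p 0) :
    Eqs G q p (fun i => dp H' i q p t) (fun i => -dq H' i q p t) t := by
  have hpn : p 0 ≤ ‖p‖ := (le_abs_self _).trans (norm_le_pi_norm p 0)
  have hR : R1 < ‖p‖ := hp1.trans_le hpn
  have e1 : ∀ i, dp H i q p t = dp YM i q p t := by
    intro i
    unfold dp
    have h1 : (fun s => H q (Function.update p i s) t) =ᶠ[𝓝 (p i)]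
        fun s => YM q (Function.update p i s) t + c := by
      have h2 : ContinuousAt (fun s => ‖Function.update p i s‖) (p i) := by fun_prop
      have h3 : ∀ᶠ s in 𝓝 (p i), R1 < ‖Function.update p i s‖ :=
        continuousAt_const.eventually_lt h2 (by simpa using hR)
      filter_upwards [h3] with s hs
      exact hH q _ t hq hs.le
    rw [h1.deriv_eq, deriv_add_const]
  have e2 : ∀ i, dq H i q p t = dq YM i q p t := by
    intro i
    unfold dq
    have h1 : (fun s => H (Function.update q i s) p t) =ᶠ[𝓝 (q i)]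
        fun s => YM (Function.update q i s) p t + c := by
      have h2 : ContinuousAt (fun s => Function.update q i s) (q i) := by fun_prop
      have h3 : ∀ᶠ s in 𝓝 (q i), InTube δ1 (Function.update q i s) :=
        h2 ((isOpen_tube δ1).mem_nhds (by simpa using hq))
      filter_upwards [h3] with s hs
      exact hH _ p t hs hR.le
    rw [h1.deriv_eq, deriv_add_const]
  have hqδ : InTube δ q := fun j => (hq j).trans_le hδ1
  have h4 : Real.exp (-‖p‖) ≤ Real.exp (rs p / 2 - p 0) := by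
    apply Real.exp_le_exp.2
    have := rs_nonneg p
    linarith
  refine ⟨?_, ?_, ?_, ?_⟩
  · have h1 := (hn q p t hqδ 0).1
    rw [e1, YM_dp0] at h1
    have h2 := abs_le.1 h1
    have h3 := Real.exp_pos (rs p / 2 - p 0)
    rw [abs_le]
    constructor <;> linarith [h2.1, h2.2]
  · have h1 := (hn q p t hqδ 0).2
    rw [e2, YM_dq0] at h1
    have e : -dq H' 0 q p t - fo (q 0) (p 0) t = -(dq H' 0 q p t - -fo (q 0) (p 0) t) := by ring
    simp only [e, abs_neg]
    exact h1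
  · intro j
    have h1 := (hn q p t hqδ j.succ).1
    rw [e1, YM_dps] at h1
    have h3 := Real.exp_pos (rs p / 2 - p 0)
    have h5 : |dp H' j.succ q p t| ≤ |dp H' j.succ q p t - p j.succ * Real.exp (rs p / 2 - p 0)| +
        |p j.succ * Real.exp (rs p / 2 - p 0)| := by
      have := abs_add_le (dp H' j.succ q p t - p j.succ * Real.exp (rs p / 2 - p 0))
        (p j.succ * Real.exp (rs p / 2 - p 0))
      simpa using this
    rw [abs_mul (p j.succ), abs_of_pos h3] at h5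
    linarith
  · intro j
    have h1 := (hn q p t hqδ j.succ).2
    rw [e2, YM_dqs, sub_zero] at h1
    simpa using h1

/-! ### existence -/

section ex

variable (H' : Ham m) (cu : (Fin (m + 1) → ℝ) × (Fin (m + 1) → ℝ) × ℝ → ℝ)

/-- the field of the model -/
noncomputable def XM (i : Fin (m + 1)) (z : (Fin (m + 1) → ℝ) × (Fin (m + 1) → ℝ) × ℝ) : ℝ :=
  if i = 0 then hp (z.1 0) (z.2.1 0) z.2.2 else 0

/-- the field of the model -/
noncomputable def PM (i : Fin (m + 1)) (z : (Fin (m + 1) → ℝ) × (Fin (m + 1) → ℝ) × ℝ) : ℝ :=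
  if i = 0 then fo (z.1 0) (z.2.1 0) z.2.2 else 0

/-- the cut off field -/
noncomputable def FF (z : (Fin (m + 1) → ℝ) × (Fin (m + 1) → ℝ) × ℝ) :
    (Fin (m + 1) → ℝ) × (Fin (m + 1) → ℝ) × ℝ :=
  (fun i => XM i z + cu z * (dp H' i z.1 z.2.1 z.2.2 - XM i z),
    fun i => PM i z + cu z * (-dq H' i z.1 z.2.1 z.2.2 - PM i z), 1)

variable {H' cu}

lemma cd3 : ContDiff ℝ 1 (fun z : (Fin (m + 1) → ℝ) × (Fin (m + 1) → ℝ) × ℝ =>
    ((z.1 0, z.2.1 0, z.2.2) : ℝ × ℝ × ℝ)) := by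
  have h1 : ContDiff ℝ 1 (fun z : (Fin (m + 1) → ℝ) × (Fin (m + 1) → ℝ) × ℝ => z.1 0) :=
    (contDiff_apply ℝ ℝ (0 : Fin (m + 1))).comp contDiff_fst
  have h2 : ContDiff ℝ 1 (fun z : (Fin (m + 1) → ℝ) × (Fin (m + 1) → ℝ) × ℝ => z.2.1 0) :=
    (contDiff_apply ℝ ℝ (0 : Fin (m + 1))).comp (contDiff_fst.comp contDiff_snd)
  exact h1.prodMk (h2.prodMk (contDiff_snd.comp contDiff_snd))

lemma XM_cd (i : Fin (m + 1)) : ContDiff ℝ 1 (XM i) := by
  unfold XM
  by_cases hi : i = 0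
  · simp only [if_pos hi]
    exact ContDiff.comp (g := fun q : ℝ × ℝ × ℝ => hp q.1 q.2.1 q.2.2)
      (f := fun z : (Fin (m + 1) → ℝ) × (Fin (m + 1) → ℝ) × ℝ =>
        ((z.1 0, z.2.1 0, z.2.2) : ℝ × ℝ × ℝ)) (Pool.Agent.W599.TL.hp_cd smooth der) cd3
  · simp only [if_neg hi]
    exact contDiff_const

lemma PM_cd (i : Fin (m + 1)) : ContDiff ℝ 1 (PM i) := by
  unfold PM
  by_cases hi : i = 0
  · simp only [if_pos hi]
    exact ContDiff.comp (g := fun q : ℝ × ℝ × ℝ => fo q.1 q.2.1 q.2.2)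
      (f := fun z : (Fin (m + 1) → ℝ) × (Fin (m + 1) → ℝ) × ℝ =>
        ((z.1 0, z.2.1 0, z.2.2) : ℝ × ℝ × ℝ)) (Pool.Agent.W599.TL.fo_cd smooth der) cd3
  · simp only [if_neg hi]
    exact contDiff_const

lemma FF_cd (hH : IsC 2 H') (hcu : ContDiff ℝ 1 cu) : ContDiff ℝ 1 (FF H' cu) := by
  have hS : Sm H' := hH
  refine ContDiff.prodMk ?_ (ContDiff.prodMk ?_ contDiff_const)
  · rw [contDiff_pi]
    intro i
    exact (XM_cd i).add (hcu.mul ((Lv_cd hS i).sub (XM_cd i)))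
  · rw [contDiff_pi]
    intro i
    exact (PM_cd i).add (hcu.mul ((Lx_cd hS i).neg.sub (PM_cd i)))

lemma abs_cut {a b w M N : ℝ} (hw0 : 0 ≤ w) (hw1 : w ≤ 1) (ha : |a| ≤ M) (hN : 0 ≤ N)
    (hb : w ≠ 0 → |b - a| ≤ N) : |a + w * (b - a)| ≤ M + N := by
  refine (abs_add_le _ _).trans (add_le_add ha ?_)
  rcases eq_or_ne w 0 with h | h
  · rw [h, zero_mul, abs_zero]
    exact hN
  · rw [abs_mul, abs_of_nonneg hw0]
    nlinarith [hb h, abs_nonneg (b - a)]

lemma FF_bd {G : ℝ} (hG : 0 ≤ G) (hcu : ∀ z, 0 ≤ cu z ∧ cu z ≤ 1)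
    (hE : ∀ z : (Fin (m + 1) → ℝ) × (Fin (m + 1) → ℝ) × ℝ, cu z ≠ 0 → rs z.2.1 / 2 ≤ z.2.1 0 ∧
      Eqs G z.1 z.2.1 (fun i => dp H' i z.1 z.2.1 z.2.2) (fun i => -dq H' i z.1 z.2.1 z.2.2) z.2.2)
    (z : (Fin (m + 1) → ℝ) × (Fin (m + 1) → ℝ) × ℝ) : ‖FF H' cu z‖ ≤ (200 + G) * (1 + ‖z‖) := by
  have hgrow := Pool.Agent.W583.TL.grow_thm sum_thm (z.1 0) (z.2.1 0) z.2.2
  have hz0 : 0 ≤ ‖z‖ := norm_nonneg z
  have hpz : ∀ i, |z.2.1 i| ≤ ‖z‖ := fun i =>
    (norm_le_pi_norm z.2.1 i).trans ((norm_fst_le z.2).trans (norm_snd_le z))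
  have hGz : 0 ≤ G * ‖z‖ := by positivity
  have hX : ∀ i, |XM i z| ≤ 12 * ‖z‖ + 100 := by
    intro i
    unfold XM
    split_ifs
    · exact hgrow.2.trans (by linarith [hpz 0])
    · rw [abs_zero]; positivity
  have hP : ∀ i, |PM i z| ≤ 12 * ‖z‖ + 100 := by
    intro i
    unfold PM
    split_ifs
    · exact hgrow.1.trans (by linarith [hpz 0])
    · rw [abs_zero]; positivity
  have hA : 0 ≤ (200 + G) * (1 + ‖z‖) := by positivity
  obtain ⟨hw0, hw1⟩ := hcu z
  unfold FF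
  refine max_le ?_ (max_le ?_ ?_)
  · rw [pi_norm_le_iff_of_nonneg hA]
    intro i
    rw [Real.norm_eq_abs]
    refine (abs_cut hw0 hw1 (hX i) (N := ‖z‖ + 2) (by positivity) (fun hne => ?_)).trans (by nlinarith)
    obtain ⟨h1, h2⟩ := hE z hne
    have h3 : Real.exp (rs z.2.1 / 2 - z.2.1 0) ≤ 1 := Real.exp_le_one_iff.2 (by linarith)
    rcases Fin.eq_zero_or_eq_succ i with hi | ⟨j, hi⟩
    · subst hi
      have h4 := h2.ex
      simp only [XM, if_true]
      linarith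
    · subst hi
      have h4 := h2.ey j
      have h5 := hpz j.succ
      simp only [XM, if_neg (Fin.succ_ne_zero j), sub_zero]
      have h6 : (|z.2.1 j.succ| + 1) * Real.exp (rs z.2.1 / 2 - z.2.1 0) ≤
          (|z.2.1 j.succ| + 1) * 1 := mul_le_mul_of_nonneg_left h3 (by positivity)
      linarith
  · rw [pi_norm_le_iff_of_nonneg hA]
    intro i
    rw [Real.norm_eq_abs]
    refine (abs_cut hw0 hw1 (hP i) (N := G) hG (fun hne => ?_)).trans (by nlinarith)
    obtain ⟨h1, h2⟩ := hE z hne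
    rcases Fin.eq_zero_or_eq_succ i with hi | ⟨j, hi⟩
    · subst hi
      have h4 := h2.ep
      simp only [PM, if_true]
      exact h4
    · subst hi
      have h4 := h2.er j
      simp only [PM, if_neg (Fin.succ_ne_zero j), sub_zero]
      exact h4
  · rw [norm_one]
    nlinarith

lemma FF_sol {A : ℝ} (hA0 : 0 < A) (hF : ContDiff ℝ 1 (FF H' cu))
    (hb : ∀ z, ‖FF H' cu z‖ ≤ A * (1 + ‖z‖)) (t0 : ℝ) (q0 p0 : Fin (m + 1) → ℝ) :
    ∃ q p : ℝ → Fin (m + 1) → ℝ, q t0 = q0 ∧ p t0 = p0 ∧ ∀ t i,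
      HasDerivAt (fun s => q s i) ((FF H' cu (q t, p t, t)).1 i) t ∧
      HasDerivAt (fun s => p s i) ((FF H' cu (q t, p t, t)).2.1 i) t := by
  obtain ⟨γ, ha0, ha⟩ := Pool.Agent.Helper981.global_sol (F := FF H' cu) hF hA0 hb (q0, p0, t0)
  have hT : ∀ s, (γ s).2.2 = t0 + s := by
    have hd : ∀ s, HasDerivAt (fun s => (γ s).2.2) 1 s := fun s => ((ha s).snd).snd
    have hd2 : ∀ s, HasDerivAt (fun s => (γ s).2.2 - s) 0 s := by
      intro s
      have := (hd s).fun_sub (hasDerivAt_id s)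
      simpa using this
    have hc := is_const_of_deriv_eq_zero (f := fun s => (γ s).2.2 - s)
      (fun s => (hd2 s).differentiableAt) (fun s => (hd2 s).deriv)
    intro s
    have h5 := hc s 0
    simp only [ha0, sub_zero] at h5
    linarith
  have hsh : ∀ t : ℝ, HasDerivAt (fun t => γ (t - t0)) (FF H' cu (γ (t - t0))) t := by
    intro t
    exact (ha (t - t0)).comp_sub_const t t0
  refine ⟨fun t => (γ (t - t0)).1, fun t => (γ (t - t0)).2.1, ?_, ?_, ?_⟩
  · simp [ha0]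
  · simp [ha0]
  · intro t i
    have e : (γ (t - t0)).2.2 = t := by rw [hT]; ring
    have e2 : ((γ (t - t0)).1, (γ (t - t0)).2.1, t) = γ (t - t0) := by
      rw [Prod.ext_iff, Prod.ext_iff]
      exact ⟨rfl, rfl, e.symm⟩
    simp only
    rw [e2]
    exact ⟨hasDerivAt_pi.1 (hsh t).fst i, hasDerivAt_pi.1 ((hsh t).snd).fst i⟩

end ex

/-- **Escape.** -/
theorem escape {H : Ham m} {δ δ1 R1 c : ℝ} (hδ10 : 0 < δ1) (hδ1 : δ1 ≤ δ)
    (hH : ∀ q p t, InTube δ1 q → R1 ≤ ‖p‖ → H q p t = YM q p t + c) (G : ℝ) :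
    ∃ (t₀ : ℝ) (U : Set ((Fin (m + 1) → ℝ) × (Fin (m + 1) → ℝ))), IsOpen U ∧ U.Nonempty ∧
      ∀ H' : Ham m, IsC 2 H' → Near δ G H H' →
        (∀ z ∈ U, ∃ q p : ℝ → Fin (m + 1) → ℝ, q t₀ = z.1 ∧ p t₀ = z.2 ∧
          Solution H' q p (Ici t₀)) ∧
        ∀ (T : ℝ) (q p : ℝ → Fin (m + 1) → ℝ), Solution H' q p (Ico t₀ T) → (q t₀, p t₀) ∈ U →
          ∀ t ∈ Ico t₀ T, InTube δ (q t) ∧ t - 5 / 2 ≤ dp H' 0 (q t) (p t) t := by
  obtain ⟨k0, hk0⟩ := boot m (half_pos hδ10) (abs_nonneg G) (R1 + 1)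
  set t0 : ℝ := (k0 : ℝ) + 1 / 2 with ht0
  have hboot := hk0 k0 le_rfl t0 ht0
  set U : Set ((Fin (m + 1) → ℝ) × (Fin (m + 1) → ℝ)) :=
    {z | |z.1 0 - k0 * t0| < 1 / 1000} ∩ {z | |z.2 0 - 3 ^ k0| < 3 ^ k0 / 1000} ∩
      (Prod.fst ⁻¹' {q | InTube (δ1 / 4) q}) ∩ (Prod.snd ⁻¹' {q | InTube 1 q}) with hU
  have h3 : (0 : ℝ) < 3 ^ k0 := by positivity
  refine ⟨t0, U, ?_, ?_, ?_⟩
  · refine IsOpen.inter (IsOpen.inter (IsOpen.inter ?_ ?_) ?_) ?_
    · exact isOpen_lt (by fun_prop) continuous_const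
    · exact isOpen_lt (by fun_prop) continuous_const
    · exact (isOpen_tube _).preimage continuous_fst
    · exact (isOpen_tube _).preimage continuous_snd
  · refine ⟨(Function.update 0 0 (k0 * t0), Function.update 0 0 (3 ^ k0)), ⟨⟨?_, ?_⟩, ?_⟩, ?_⟩
    · simp
    · simp
    · intro j
      simp only
      rw [Function.update_of_ne (Fin.succ_ne_zero j)]
      simpa using hδ10
    · intro j
      simp only
      rw [Function.update_of_ne (Fin.succ_ne_zero j)]
      simp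
  intro H' hH' hn
  have hn' : Near δ |G| H H' := fun q p t hq i =>
    ⟨(hn q p t hq i).1, (hn q p t hq i).2.trans (le_abs_self G)⟩
  have hmem : ∀ z ∈ U, |z.1 0 - k0 * t0| ≤ 1 / 1000 ∧ |z.2 0 - 3 ^ k0| ≤ 3 ^ k0 / 1000 ∧
      (∀ j : Fin m, |z.1 j.succ| ≤ δ1 / 2 / 2) ∧ ∀ j : Fin m, |z.2 j.succ| ≤ 1 := by
    rintro z ⟨⟨⟨h1, h2⟩, h4⟩, h5⟩
    exact ⟨h1.le, h2.le, fun j => ((h4 j).le).trans (le_of_eq (by ring)), fun j => (h5 j).le⟩
  constructor
  · intro z hz
    obtain ⟨χ, hχ1, hχ2, hχ3, hχ4, -⟩ := chi_exists m hδ10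
    set cu : (Fin (m + 1) → ℝ) × (Fin (m + 1) → ℝ) × ℝ → ℝ := fun z =>
      χ z.1 * Real.smoothTransition (z.2.1 0 - R1) *
        Real.smoothTransition (2 * (z.2.1 0 - rs z.2.1 / 2) - 1) with hcu
    have hcucd : ContDiff ℝ 1 cu := by
      have h1 : ContDiff ℝ 1 (fun z : (Fin (m + 1) → ℝ) × (Fin (m + 1) → ℝ) × ℝ => z.2.1 0) :=
        (contDiff_apply ℝ ℝ (0 : Fin (m + 1))).comp (contDiff_fst.comp contDiff_snd)
      have h2 : ContDiff ℝ 1 (fun z : (Fin (m + 1) → ℝ) × (Fin (m + 1) → ℝ) × ℝ => rs z.2.1) :=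
        (rs_cd.of_le (by exact_mod_cast le_top)).comp (contDiff_fst.comp contDiff_snd)
      have h4 : ContDiff ℝ 1 Real.smoothTransition := st_cd.of_le (by exact_mod_cast le_top)
      have h5 : ContDiff ℝ 1 (fun z : (Fin (m + 1) → ℝ) × (Fin (m + 1) → ℝ) × ℝ => χ z.1) :=
        (hχ1.of_le (by exact_mod_cast le_top)).comp contDiff_fst
      exact (h5.mul (h4.comp (h1.sub contDiff_const))).mul
        (h4.comp ((contDiff_const.mul (h1.sub (h2.div_const 2))).sub contDiff_const))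
    have hcu01 : ∀ z, 0 ≤ cu z ∧ cu z ≤ 1 := by
      intro z
      obtain ⟨a1, a2⟩ := hχ2 z.1
      have b1 := Real.smoothTransition.nonneg (z.2.1 0 - R1)
      have b2 := Real.smoothTransition.le_one (z.2.1 0 - R1)
      have c1 := Real.smoothTransition.nonneg (2 * (z.2.1 0 - rs z.2.1 / 2) - 1)
      have c2 := Real.smoothTransition.le_one (2 * (z.2.1 0 - rs z.2.1 / 2) - 1)
      exact ⟨mul_nonneg (mul_nonneg a1 b1) c1,
        mul_le_one₀ (mul_le_one₀ a2 b1 b2) c1 c2⟩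
    have hcu1 : ∀ q p t, Good (δ1 / 2) (R1 + 1) q p → cu (q, p, t) = 1 := by
      intro q p t hg
      have a := hχ3 q hg.y
      have b := Real.smoothTransition.one_of_one_le (x := p 0 - R1) (by linarith [hg.big])
      have c := Real.smoothTransition.one_of_one_le (x := 2 * (p 0 - rs p / 2) - 1)
        (by linarith [hg.par])
      simp only [hcu, a, b, c, mul_one]
    have hE : ∀ z : (Fin (m + 1) → ℝ) × (Fin (m + 1) → ℝ) × ℝ, cu z ≠ 0 →
        rs z.2.1 / 2 ≤ z.2.1 0 ∧ Eqs |G| z.1 z.2.1 (fun i => dp H' i z.1 z.2.1 z.2.2)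
          (fun i => -dq H' i z.1 z.2.1 z.2.2) z.2.2 := by
      intro z hz
      have a : InTube δ1 z.1 := by
        by_contra hcon
        exact hz (by simp only [hcu, hχ4 z.1 hcon, zero_mul])
      have b : R1 < z.2.1 0 := by
        by_contra hcon
        exact hz (by
          simp only [hcu, Real.smoothTransition.zero_of_nonpos (x := z.2.1 0 - R1)
            (by linarith [not_lt.1 hcon]), mul_zero, zero_mul])
      have c : rs z.2.1 / 2 ≤ z.2.1 0 := by
        by_contra hcon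
        exact hz (by
          simp only [hcu, Real.smoothTransition.zero_of_nonpos
            (x := 2 * (z.2.1 0 - rs z.2.1 / 2) - 1) (by linarith [not_le.1 hcon]), mul_zero])
      exact ⟨c, eqs hδ1 hH hn' z.2.2 a b⟩
    obtain ⟨q, p, hq0, hp0, hqp⟩ := FF_sol (A := 200 + |G|) (by positivity) (FF_cd hH' hcucd)
      (FF_bd (abs_nonneg G) hcu01 hE) t0 z.1 z.2
    obtain ⟨u1, u2, u3, u4⟩ := hmem z hz
    have hFF : ∀ t, Good (δ1 / 2) (R1 + 1) (q t) (p t) → ∀ i,
        (FF H' cu (q t, p t, t)).1 i = dp H' i (q t) (p t) t ∧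
        (FF H' cu (q t, p t, t)).2.1 i = -dq H' i (q t) (p t) t := by
      intro t hg i
      have h1 := hcu1 (q t) (p t) t hg
      unfold FF
      simp only [h1]
      constructor <;> ring
    have hgood : ∀ t, t0 ≤ t → Good (δ1 / 2) (R1 + 1) (q t) (p t) := by
      intro t ht
      refine (hboot (t + 1) q p (fun t => (FF H' cu (q t, p t, t)).1)
        (fun t => (FF H' cu (q t, p t, t)).2.1) (fun t _ _ i => hqp t i) ?_ ?_ ?_ ?_ ?_ t ht
        (by linarith)).1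
      · intro t _ _ hg
        have e1 : (FF H' cu (q t, p t, t)).1 = fun i => dp H' i (q t) (p t) t :=
          funext fun i => (hFF t hg i).1
        have e2 : (FF H' cu (q t, p t, t)).2.1 = fun i => -dq H' i (q t) (p t) t :=
          funext fun i => (hFF t hg i).2
        rw [e1, e2]
        exact eqs hδ1 hH hn' t (fun j => (hg.y j).trans_le (by linarith)) (by linarith [hg.big])
      · rw [hq0]; exact u1
      · rw [hp0]; exact u2
      · rw [hq0]; exact u3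
      · rw [hp0]; exact u4
    refine ⟨q, p, hq0, hp0, fun t ht i => ?_⟩
    obtain ⟨e1, e2⟩ := hFF t (hgood t ht) i
    have := hqp t i
    rw [e1, e2] at this
    exact this
  · intro T q p hs hz t ht
    obtain ⟨u1, u2, u3, u4⟩ := hmem _ hz
    obtain ⟨g1, g2⟩ := hboot T q p (fun t i => dp H' i (q t) (p t) t)
      (fun t i => -dq H' i (q t) (p t) t) (fun t h1 h2 i => hs t ⟨h1, h2⟩ i)
      (fun t _ _ hg => eqs hδ1 hH hn' t (fun j => (hg.y j).trans_le (by linarith))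
        (by linarith [hg.big])) u1 u2 u3 u4 t ht.1 ht.2
    exact ⟨fun j => (g1.y j).trans_le (by linarith), g2⟩

/-! ### potentials -/

lemma pot_bd (δ : ℝ) (f : (Fin (m + 1) → ℝ) → ℝ → ℝ)
    (hf : ContDiff ℝ 2 (fun z : (Fin (m + 1) → ℝ) × ℝ => f z.1 z.2))
    (hper : ∀ (q : Fin (m + 1) → ℝ) (t : ℝ) (a b : ℤ),
      f (Function.update q 0 (q 0 + a)) (t + b) = f q t) :
    ∃ G : ℝ, ∀ (q : Fin (m + 1) → ℝ) (t : ℝ), InTube δ q → |f q t| ≤ G ∧
      ‖fderiv ℝ (fun z : (Fin (m + 1) → ℝ) × ℝ => f z.1 z.2) (q, t)‖ ≤ G := by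
  set F : (Fin (m + 1) → ℝ) × ℝ → ℝ := fun z => f z.1 z.2 with hF
  have hc : Continuous (fun z => fderiv ℝ F z) := hf.continuous_fderiv (by norm_num)
  have hK : IsCompact ((Set.pi univ fun _ : Fin (m + 1) => Icc (-(|δ| + 1)) (|δ| + 1)) ×ˢ
      Icc (0 : ℝ) 1) := (isCompact_univ_pi fun _ => isCompact_Icc).prod isCompact_Icc
  obtain ⟨G, hG⟩ := hK.exists_bound_of_continuousOn hc.continuousOn
  obtain ⟨G1, hG1⟩ := hK.exists_bound_of_continuousOn hf.continuous.continuousOn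
  refine ⟨max G1 G, fun q t hq => ?_⟩
  set q1 : Fin (m + 1) → ℝ := Function.update q 0 (Int.fract (q 0)) with hq1
  have e : (q, t) = (q1, Int.fract t) + (Pi.single 0 (⌊q 0⌋ : ℝ), (⌊t⌋ : ℝ)) := by
    rw [Prod.mk_add_mk, Int.fract_add_floor]
    congr 1
    funext i
    rcases eq_or_ne i 0 with hi | hi
    · rw [hi]
      simp [hq1, Int.fract_add_floor]
    · simp [hq1, hi]
  have hsh : ∀ z : (Fin (m + 1) → ℝ) × ℝ,
      F (z + (Pi.single 0 (⌊q 0⌋ : ℝ), (⌊t⌋ : ℝ))) = F z := by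
    intro z
    have h1 := hper z.1 z.2 ⌊q 0⌋ ⌊t⌋
    have e1 : z.1 + Pi.single 0 (⌊q 0⌋ : ℝ) = Function.update z.1 0 (z.1 0 + ⌊q 0⌋) := by
      funext i
      rcases eq_or_ne i 0 with hi | hi
      · rw [hi]
        simp
      · simp [hi]
    simp only [hF, Prod.fst_add, Prod.snd_add]
    rw [e1]
    exact h1
  have h2 : fderiv ℝ F (q, t) = fderiv ℝ F (q1, Int.fract t) := by
    rw [e, ← fderiv_comp_add_right]
    congr 1
    exact funext hsh
  have h2' : f q t = F (q1, Int.fract t) := by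
    rw [← hsh, ← e]
  have hmem : (q1, Int.fract t) ∈ ((Set.pi univ fun _ : Fin (m + 1) =>
      Icc (-(|δ| + 1)) (|δ| + 1)) ×ˢ Icc (0 : ℝ) 1) := by
    refine ⟨?_, ⟨Int.fract_nonneg _, (Int.fract_lt_one _).le⟩⟩
    intro i _
    have h3 := abs_nonneg δ
    rcases Fin.eq_zero_or_eq_succ i with hi | ⟨j, hi⟩
    · rw [hi]
      simp only [hq1, Function.update_self]
      exact ⟨by linarith [Int.fract_nonneg (q 0)], by linarith [(Int.fract_lt_one (q 0)).le]⟩
    · rw [hi]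
      simp only [hq1, Function.update_of_ne (Fin.succ_ne_zero j)]
      have h4 := abs_le.1 ((hq j).le.trans (le_abs_self δ))
      exact ⟨by linarith [h4.1], by linarith [h4.2]⟩
  refine ⟨?_, ?_⟩
  · rw [h2']
    exact (hG1 _ hmem).trans (le_max_left _ _)
  · rw [h2]
    exact (hG _ hmem).trans (le_max_right _ _)

theorem near_pot (H : Ham m) (δ : ℝ) (f : (Fin (m + 1) → ℝ) → ℝ → ℝ)
    (hf : ContDiff ℝ 2 (fun z : (Fin (m + 1) → ℝ) × ℝ => f z.1 z.2))
    (hper : ∀ (q : Fin (m + 1) → ℝ) (t : ℝ) (a b : ℤ),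
      f (Function.update q 0 (q 0 + a)) (t + b) = f q t)
    (hH : IsC 2 H) : ∃ G : ℝ, Near δ G H (fun q p t => H q p t - f q t) := by
  set F : (Fin (m + 1) → ℝ) × ℝ → ℝ := fun z => f z.1 z.2 with hF
  have hFd : Differentiable ℝ F := hf.differentiable (by norm_num)
  obtain ⟨G, hG⟩ := pot_bd δ f hf hper
  have hbd : ∀ (q : Fin (m + 1) → ℝ) (t : ℝ), InTube δ q → ‖fderiv ℝ F (q, t)‖ ≤ G :=
    fun q t hq => (hG q t hq).2
  refine ⟨G, fun q p t hq i => ⟨?_, ?_⟩⟩
  · have e : dp (fun q p t => H q p t - f q t) i q p t = dp H i q p t := by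
      unfold dp
      exact deriv_sub_const _
    rw [e, sub_self, abs_zero]
    exact (Real.exp_pos _).le
  · have h1 : HasDerivAt (fun s => f (Function.update q i s) t)
        (fderiv ℝ F (q, t) (Pi.single i 1, 0)) (q i) := by
      have h2 : HasFDerivAt F (fderiv ℝ F (q, t)) (Function.update q i (q i), t) := by
        rw [Function.update_eq_self]; exact (hFd _).hasFDerivAt
      exact h2.comp_hasDerivAt (q i) ((hasDerivAt_update q i (q i)).prodMk (hasDerivAt_const _ t))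
    have h2 := Lx_hd (L := H) hH i q p t
    have e : dq (fun q p t => H q p t - f q t) i q p t - dq H i q p t =
        -fderiv ℝ F (q, t) (Pi.single i 1, 0) := by
      have e1 : dq (fun q p t => H q p t - f q t) i q p t = _ := (h2.fun_sub h1).deriv
      have e2 : dq H i q p t = _ := h2.deriv
      rw [e1, e2]
      ring
    rw [e, abs_neg]
    refine ((fderiv ℝ F (q, t)).le_opNorm _).trans ?_
    have h3 : ‖((Pi.single i (1 : ℝ) : Fin (m + 1) → ℝ), (0 : ℝ))‖ ≤ 1 := by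
      rw [Prod.norm_def]
      refine max_le ?_ (by simp)
      rw [pi_norm_le_iff_of_nonneg zero_le_one]
      intro l
      rcases eq_or_ne l i with hl | hl
      · rw [hl]; simp
      · simp [hl]
    calc ‖fderiv ℝ F (q, t)‖ * ‖((Pi.single i (1 : ℝ) : Fin (m + 1) → ℝ), (0 : ℝ))‖ ≤
          ‖fderiv ℝ F (q, t)‖ * 1 := mul_le_mul_of_nonneg_left h3 (norm_nonneg _)
      _ ≤ G := by rw [mul_one]; exact hbd q t hq

theorem energy_pot {H : Ham m} (hH : IsC 2 H) (hE : EnergyBound H)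
    (f : (Fin (m + 1) → ℝ) → ℝ → ℝ)
    (hf : ContDiff ℝ 2 (fun z : (Fin (m + 1) → ℝ) × ℝ => f z.1 z.2))
    (hper : ∀ (q : Fin (m + 1) → ℝ) (t : ℝ) (a b : ℤ),
      f (Function.update q 0 (q 0 + a)) (t + b) = f q t) :
    EnergyBound (fun q p t => H q p t - f q t) := by
  intro r
  obtain ⟨C, hC⟩ := hE r
  obtain ⟨G, hG⟩ := pot_bd r f hf hper
  set F : (Fin (m + 1) → ℝ) × ℝ → ℝ := fun z => f z.1 z.2 with hF
  have hFd : Differentiable ℝ F := hf.differentiable (by norm_num)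
  have hC0 := abs_nonneg C
  have hG0' := abs_nonneg G
  refine ⟨|C| * (1 + |G|) + |G|, fun q p t hq => ?_⟩
  obtain ⟨hG1, hG2⟩ := hG q t hq
  have h1 : HasDerivAt (fun s => f q s) (fderiv ℝ F (q, t) (0, 1)) t :=
    (hFd (q, t)).hasFDerivAt.comp_hasDerivAt t ((hasDerivAt_const t q).prodMk (hasDerivAt_id t))
  have h2 : dt (fun q p t => H q p t - f q t) q p t = dt H q p t - fderiv ℝ F (q, t) (0, 1) :=
    ((ham_dt hH q p t).fun_sub h1).deriv
  have h3 : |fderiv ℝ F (q, t) (0, 1)| ≤ G := by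
    refine ((fderiv ℝ F (q, t)).le_opNorm _).trans ?_
    have h4 : ‖((0 : Fin (m + 1) → ℝ), (1 : ℝ))‖ ≤ 1 := by
      rw [Prod.norm_def]
      simp
    calc ‖fderiv ℝ F (q, t)‖ * ‖((0 : Fin (m + 1) → ℝ), (1 : ℝ))‖ ≤ ‖fderiv ℝ F (q, t)‖ * 1 :=
          mul_le_mul_of_nonneg_left h4 (norm_nonneg _)
      _ ≤ G := by rw [mul_one]; exact hG2
  have h5 := hC q p t hq
  rw [h2]
  have h6 : |dt H q p t - fderiv ℝ F (q, t) (0, 1)| ≤ |dt H q p t| + |G| :=
    (abs_sub _ _).trans (by linarith [le_abs_self G])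
  have h7 : |H q p t| ≤ |H q p t - f q t| + |G| := by
    have h8 : |H q p t| = |(H q p t - f q t) + f q t| := by congr 1; ring
    rw [h8]
    exact (abs_add_le _ _).trans (by linarith [le_abs_self G])
  have h9 : |dt H q p t| ≤ |C| * (1 + |H q p t|) :=
    h5.trans (mul_le_mul_of_nonneg_right (le_abs_self C) (by positivity))
  have h10 := mul_le_mul_of_nonneg_left h7 hC0
  have h11 := abs_nonneg (H q p t - f q t)
  have h12 := mul_nonneg hG0' h11
  have h13 := mul_nonneg hC0 h12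
  nlinarith

end Pool.Agent.H105.TU
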