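import Pool.Agent.H105.TU.Time
import Pool.Agent.H105.TU.Defs

/-!
The modified Hamiltonian: equal to the given one off the tube and for small momenta, equal to the
model (up to a constant) in a smaller tube for large momenta.
-/

set_option autoImplicit false

namespace Pool.Agent.H105.TU

open Set Filter Topology
open Pool.Agent.W774.TL (h)
open Pool.Agent.TH217.TL
open scoped ContDiff

variable {m : ℕ}

lemma chi_exists (m : ℕ) {δ : ℝ} (hδ : 0 < δ) : ∃ χ : (Fin (m + 1) → ℝ) → ℝ,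
    ContDiff ℝ (⊤ : ℕ∞) χ ∧ (∀ q, 0 ≤ χ q ∧ χ q ≤ 1) ∧ (∀ q, InTube (δ / 2) q → χ q = 1) ∧
    (∀ q, ¬ InTube δ q → χ q = 0) ∧ ∀ q s, χ (Function.update q 0 s) = χ q := by
  refine ⟨fun q => ∏ j : Fin m,
    Real.smoothTransition (4 / (3 * δ ^ 2) * (δ ^ 2 - q j.succ ^ 2)), ?_, ?_, ?_, ?_, ?_⟩
  · exact contDiff_prod fun j _ => st_cd.comp (contDiff_const.mul
      (contDiff_const.sub ((contDiff_apply ℝ ℝ j.succ).pow 2)))
  · intro q
    exact ⟨Finset.prod_nonneg fun j _ => Real.smoothTransition.nonneg _,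
      Finset.prod_le_one (fun j _ => Real.smoothTransition.nonneg _)
        fun j _ => Real.smoothTransition.le_one _⟩
  · intro q hq
    refine Finset.prod_eq_one fun j _ => ?_
    apply Real.smoothTransition.one_of_one_le
    have h1 := hq j
    have h2 : q j.succ ^ 2 ≤ (δ / 2) ^ 2 := by
      rw [← sq_abs]
      exact pow_le_pow_left₀ (abs_nonneg _) h1.le 2
    rw [div_mul_eq_mul_div, le_div_iff₀ (by positivity)]
    nlinarith
  · intro q hq
    unfold InTube at hq
    push Not at hq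
    obtain ⟨j, hj⟩ := hq
    refine Finset.prod_eq_zero (Finset.mem_univ j) ?_
    apply Real.smoothTransition.zero_of_nonpos
    have h2 : δ ^ 2 ≤ q j.succ ^ 2 := by
      rw [← sq_abs (q j.succ)]
      exact pow_le_pow_left₀ hδ.le hj 2
    apply mul_nonpos_of_nonneg_of_nonpos (by positivity)
    linarith
  · intro q s
    refine Finset.prod_congr rfl fun j _ => ?_
    rw [Function.update_of_ne (Fin.succ_ne_zero j)]

/-- wrapping of the transversal coordinates -/
def wrap (φ : ℝ → ℝ) (q : Fin (m + 1) → ℝ) : Fin (m + 1) → ℝ :=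
  fun i => if i = 0 then q i else φ (q i)

lemma wrap_cd {φ : ℝ → ℝ} (hφ : ContDiff ℝ (⊤ : ℕ∞) φ) :
    ContDiff ℝ (⊤ : ℕ∞) (wrap (m := m) φ) := by
  rw [contDiff_pi]
  intro i
  unfold wrap
  by_cases hi : i = 0
  · simp only [if_pos hi]
    exact contDiff_apply ℝ ℝ i
  · simp only [if_neg hi]
    exact hφ.comp (contDiff_apply ℝ ℝ i)

lemma wrap_eq {φ : ℝ → ℝ} (h : ∀ s, |s| ≤ 1 / 8 → φ s = s) {q : Fin (m + 1) → ℝ}
    (hq : ∀ j : Fin m, |q j.succ| ≤ 1 / 8) : wrap φ q = q := by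
  funext i
  unfold wrap
  rcases Fin.eq_zero_or_eq_succ i with hi | ⟨j, hi⟩
  · rw [if_pos hi]
  · rw [if_neg (by rw [hi]; exact Fin.succ_ne_zero j), hi]
    exact h _ (hq j)

lemma B_dt {B : (Fin (m + 1) → ℝ) × (Fin (m + 1) → ℝ) × ℝ → ℝ} (hB : ContDiff ℝ 2 B)
    (hper : PerE B) {R' c : ℝ}
    (hBc : ∀ z, R' ≤ ‖z.2.1‖ → B z = UU (YM (m := m)) z + c) :
    ∃ C : ℝ, 0 ≤ C ∧ ∀ q p t, ∃ d : ℝ, HasDerivAt (fun s => B (q, p, s)) d t ∧
      |d| ≤ C * (1 + |B (q, p, t)|) := by
  obtain ⟨M, hM0, hM⟩ := per_bd (n := m + 1) (g := fun z => fderiv ℝ B z.1 (0, 0, 1))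
    (((hB.continuous_fderiv (by norm_num)).comp continuous_fst).clm_apply continuous_const)
    (fun x v t k l w => by simp only; rw [fderiv_per hper]) R'
  obtain ⟨b, hb⟩ := (Pool.Agent.W819.TL.sup_thm Pool.Agent.W774.TL.sum_thm).1 0
  refine ⟨M + 400 * (1 + |b| + |c|), by positivity, ?_⟩
  intro q p t
  have hA : 0 ≤ |B (q, p, t)| := abs_nonneg _
  rcases le_or_gt R' ‖p‖ with hp | hp
  · obtain ⟨d, hd1, hd2⟩ := ht_bound (q 0) (p 0) t
    have e : (fun s => B (q, p, s)) = fun s => h (q 0) (p 0) s +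
        (Real.exp (rs p / 2 - p 0) + c) := by
      funext s
      rw [hBc (q, p, s) hp]
      unfold UU YM
      simp only
      ring
    refine ⟨d, ?_, ?_⟩
    · rw [e]
      exact hd1.add_const _
    · have h1 := hb (q 0) (p 0) t
      have h2 : B (q, p, t) = h (q 0) (p 0) t + Real.exp (rs p / 2 - p 0) + c := by
        rw [hBc (q, p, t) hp]
        rfl
      have h3 := Real.exp_pos (rs p / 2 - p 0)
      have h4 : |h (q 0) (p 0) t| ≤ |B (q, p, t)| + |b| + |c| := by
        have h5 := le_abs_self (B (q, p, t))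
        have h6 := le_abs_self b
        have h7 := neg_abs_le c
        have h8 := abs_nonneg c
        have h9 := abs_nonneg b
        refine abs_le.2 ⟨by linarith, by linarith⟩
      have h10 : 0 ≤ M * (1 + |B (q, p, t)|) := by positivity
      have h11 : 0 ≤ (|b| + |c|) * |B (q, p, t)| := by positivity
      nlinarith
  · have h1 : HasFDerivAt B (fderiv ℝ B (q, p, t)) (q, p, t) :=
      (hB.differentiable (by norm_num) _).hasFDerivAt
    have h2 := h1.comp_hasDerivAt t
      ((hasDerivAt_const t q).prodMk ((hasDerivAt_const t p).prodMk (hasDerivAt_id t)))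
    refine ⟨_, h2, ?_⟩
    have h3 := hM q p t 0 hp.le (by simp)
    refine h3.trans ?_
    have h4 : 0 ≤ 400 * (1 + |b| + |c|) * (1 + |B (q, p, t)|) := by positivity
    nlinarith [mul_nonneg hM0 hA]

lemma ham_dt {H : Ham m} (hH : IsC 2 H) (q p : Fin (m + 1) → ℝ) (t : ℝ) :
    HasDerivAt (fun s => H q p s) (dt H q p t) t := by
  apply DifferentiableAt.hasDerivAt
  have h1 := ContDiff.differentiable hH (by norm_num)
  have h2 : DifferentiableAt ℝ (fun s : ℝ => ((q, p, s) :
    (Fin (m + 1) → ℝ) × (Fin (m + 1) → ℝ) × ℝ)) t := by fun_prop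
  exact DifferentiableAt.comp (g := fun z : (Fin (m + 1) → ℝ) × (Fin (m + 1) → ℝ) × ℝ =>
    H z.1 z.2.1 z.2.2) t (h1 _) h2

theorem modify {k : ℕ∞} (hk : 2 ≤ k) {H0 : Ham m} (h0 : TonelliHam k H0) (R : ℝ) {δ : ℝ}
    (hδ : 0 < δ) : ∃ H : Ham m, TonelliHam k H ∧
      (∀ q p t, (‖p‖ ≤ R ∨ ¬ InTube δ q) → H q p t = H0 q p t) ∧
      (EnergyBound H0 → EnergyBound H) ∧
      ∃ δ1 R1 c : ℝ, 0 < δ1 ∧ δ1 ≤ δ ∧
        ∀ q p t, InTube δ1 q → R1 ≤ ‖p‖ → H q p t = YM q p t + c := by
  have k2 := two_le hk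
  obtain ⟨φ, hφ1, hφ2, hφ3⟩ := wrap_exists
  set δ2 : ℝ := min δ (1 / 8) with hδ2
  have hδ20 : 0 < δ2 := lt_min hδ (by norm_num)
  obtain ⟨χ, hχ1, hχ2, hχ3, hχ4, hχ5⟩ := chi_exists m hδ20
  -- the periodic version of `H0`
  set U0 : Ham m := fun q p t => H0 (wrap φ q) p t with hU0
  have hUk : ContDiff ℝ k (UU U0) := by
    have h1 : ContDiff ℝ k (fun z : (Fin (m + 1) → ℝ) × (Fin (m + 1) → ℝ) × ℝ =>
        (wrap φ z.1, z.2.1, z.2.2)) :=
      (((wrap_cd hφ1).of_le k_le).comp contDiff_fst).prodMk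
        ((contDiff_fst.comp contDiff_snd).prodMk (contDiff_snd.comp contDiff_snd))
    exact ContDiff.comp (g := fun z : (Fin (m + 1) → ℝ) × (Fin (m + 1) → ℝ) × ℝ =>
      H0 z.1 z.2.1 z.2.2) h0.smooth h1
  have hUp : PerE (UU U0) := by
    intro x v t a b
    have e : wrap φ (fun i => x i + a i) =
        Function.update (wrap φ x) 0 ((wrap φ x) 0 + (a 0 : ℤ)) := by
      funext i
      rcases eq_or_ne i 0 with hi | hi
      · rw [hi, Function.update_self]
        simp [wrap]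
      · rw [Function.update_of_ne hi]
        simp only [wrap, if_neg hi]
        exact hφ2 _ _
    change H0 (wrap φ (fun i => x i + a i)) v (t + b) = H0 (wrap φ x) v t
    rw [e]
    exact h0.periodic _ _ _ _ _
  have hU2 : Sm U0 := hUk.of_le k2
  have hUpos : Pos U0 := fun x v t w hw => h0.convex _ _ _ _ hw
  have hYk : ContDiff ℝ k (UU (YM (m := m))) := YM_cd.of_le k_le
  obtain ⟨B, hBk, hBp, hBd, hBs, hBR, R', c, hBc⟩ := glue_thm hk (U0 := UU U0)
    (Y0 := UU (YM (m := m))) hUk hUp ((pos_iff hU2).1 hUpos) hYk YM_per YM_H2 YM_sup R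
  have hBS : Sm (fun x v t => B (x, v, t)) := hBk.of_le k2
  have hBPos : Pos (fun x v t => B (x, v, t)) := (pos_iff hBS).2 hBd
  have h0S : Sm H0 := ContDiff.of_le h0.smooth k2
  set H : Ham m := fun q p t => (1 - χ q) * H0 q p t + χ q * B (q, p, t) with hH
  have hper0 : ∀ (q p : Fin (m + 1) → ℝ) (t : ℝ) (a b : ℤ),
      B (Function.update q 0 (q 0 + a), p, t + b) = B (q, p, t) := by
    intro q p t a b
    have h1 := hBp q p t (Function.update 0 0 a) b
    have e : (fun i => q i + ((Function.update (0 : Fin (m + 1) → ℤ) 0 a i : ℤ) : ℝ)) =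
        Function.update q 0 (q 0 + a) := by
      funext i
      rcases eq_or_ne i 0 with hi | hi
      · rw [hi, Function.update_self, Function.update_self]
      · rw [Function.update_of_ne hi, Function.update_of_ne hi]
        simp
    rw [e] at h1
    exact h1
  refine ⟨H, ⟨?_, ?_, ?_, ?_⟩, ?_, ?_, δ2 / 2, R', c, by positivity,
    (by have := min_le_left δ (1 / 8); linarith), ?_⟩
  · have h1 : ContDiff ℝ k (fun z : (Fin (m + 1) → ℝ) × (Fin (m + 1) → ℝ) × ℝ => χ z.1) :=
      (hχ1.of_le k_le).comp contDiff_fst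
    exact ((contDiff_const.sub h1).mul h0.smooth).add (h1.mul hBk)
  · intro q p t a b
    simp only [hH]
    rw [hχ5, h0.periodic, hper0]
  · intro q p t w hw
    have e1 : ∀ s, HasDerivAt (fun s : ℝ => H q (p + s • w) t)
        ((1 - χ q) * fderiv ℝ (UU H0) (q, p + s • w, t) (0, w, 0) +
          χ q * fderiv ℝ (UU fun x v t => B (x, v, t)) (q, p + s • w, t) (0, w, 0)) s :=
      fun s => ((line1 h0S q p w t s).const_mul _).add ((line1 hBS q p w t s).const_mul _)
    have e2 : deriv (fun s : ℝ => H q (p + s • w) t) = fun s =>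
        (1 - χ q) * fderiv ℝ (UU H0) (q, p + s • w, t) (0, w, 0) +
          χ q * fderiv ℝ (UU fun x v t => B (x, v, t)) (q, p + s • w, t) (0, w, 0) :=
      funext fun s => (e1 s).deriv
    rw [e2, (((line2 h0S q p w t 0).const_mul (1 - χ q)).fun_add
      ((line2 hBS q p w t 0).const_mul (χ q))).deriv]
    have h1 := (pos_iff h0S).1 h0.convex (q, p + (0 : ℝ) • w, t) w hw
    have h2 := (pos_iff hBS).1 hBPos (q, p + (0 : ℝ) • w, t) w hw
    obtain ⟨h3, h4⟩ := hχ2 q
    rcases eq_or_lt_of_le h3 with h5 | h5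
    · rw [← h5]
      simpa using h1
    · have h6 := mul_pos h5 h2
      have h7 := mul_nonneg (sub_nonneg.2 h4) h1.le
      linarith
  · intro r K
    obtain ⟨B1, hB1⟩ := h0.superlinear r K
    obtain ⟨B2, hB2⟩ := hBs K
    refine ⟨max B1 B2, fun q p t hq => ?_⟩
    have h1 := hB1 q p t hq
    have h2 := hB2 (q, p, t)
    simp only at h2
    obtain ⟨h3, h4⟩ := hχ2 q
    have h5 := le_max_left B1 B2
    have h6 := le_max_right B1 B2
    have h7 : (1 - χ q) * (K * ‖p‖ - max B1 B2) ≤ (1 - χ q) * H0 q p t :=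
      mul_le_mul_of_nonneg_left (by linarith) (by linarith)
    have h8 : χ q * (K * ‖p‖ - max B1 B2) ≤ χ q * B (q, p, t) :=
      mul_le_mul_of_nonneg_left (by linarith) h3
    simp only [hH]
    linarith
  · intro q p t hqp
    simp only [hH]
    by_cases hq : InTube δ2 q
    · have hq' : InTube δ q := fun j => (hq j).trans_le (min_le_left _ _)
      have hp : ‖p‖ ≤ R := hqp.resolve_right (not_not.2 hq')
      have h1 := hBR (q, p, t) hp
      have h2 : wrap φ q = q := wrap_eq hφ3 fun j => ((hq j).trans_le (min_le_right _ _)).le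
      have h3 : UU U0 (q, p, t) = H0 q p t := by
        change H0 (wrap φ q) p t = _
        rw [h2]
      rw [h1, h3]
      ring
    · rw [hχ4 q hq]
      ring
  · intro hE r
    obtain ⟨C0, hC0⟩ := hE r
    obtain ⟨C1, hC10, hC1⟩ := B_dt (hBk.of_le k2) hBp hBc
    obtain ⟨b0, hb0⟩ := h0.superlinear r 0
    obtain ⟨b1, hb1⟩ := hBs 0
    have hp0 := abs_nonneg C0
    have hb00 := abs_nonneg b0
    have hb10 := abs_nonneg b1
    refine ⟨(|C0| + C1) * (1 + 2 * |b0| + 2 * |b1|), fun q p t hq => ?_⟩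
    obtain ⟨h3, h4⟩ := hχ2 q
    obtain ⟨d, hd1, hd2⟩ := hC1 q p t
    have e1 := ((ham_dt h0S q p t).const_mul (1 - χ q)).add (hd1.const_mul (χ q))
    have e2 : dt H q p t = (1 - χ q) * dt H0 q p t + χ q * d := e1.deriv
    rw [e2]
    have f1 := hC0 q p t hq
    have f2 := hb0 q p t hq
    have f3 := hb1 (q, p, t)
    simp only [zero_mul, zero_sub] at f2 f3
    have g1 : |H0 q p t| ≤ H0 q p t + 2 * |b0| := by
      have := le_abs_self b0
      refine abs_le.2 ⟨by linarith, by linarith⟩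
    have g2 : |B (q, p, t)| ≤ B (q, p, t) + 2 * |b1| := by
      have := le_abs_self b1
      refine abs_le.2 ⟨by linarith, by linarith⟩
    have g3 : |dt H0 q p t| ≤ (|C0| + C1) * (1 + H0 q p t + 2 * |b0| + 2 * |b1|) := by
      calc |dt H0 q p t| ≤ C0 * (1 + |H0 q p t|) := f1
        _ ≤ (|C0| + C1) * (1 + |H0 q p t|) :=
            mul_le_mul_of_nonneg_right (by linarith [le_abs_self C0]) (by positivity)
        _ ≤ _ := mul_le_mul_of_nonneg_left (by linarith) (by positivity)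
    have g4 : |d| ≤ (|C0| + C1) * (1 + B (q, p, t) + 2 * |b0| + 2 * |b1|) := by
      calc |d| ≤ C1 * (1 + |B (q, p, t)|) := hd2
        _ ≤ (|C0| + C1) * (1 + |B (q, p, t)|) :=
            mul_le_mul_of_nonneg_right (by linarith) (by positivity)
        _ ≤ _ := mul_le_mul_of_nonneg_left (by linarith) (by positivity)
    have g5 : |(1 - χ q) * dt H0 q p t + χ q * d| ≤
        (1 - χ q) * |dt H0 q p t| + χ q * |d| := by
      refine (abs_add_le _ _).trans ?_
      rw [abs_mul, abs_mul, abs_of_nonneg h3, abs_of_nonneg (sub_nonneg.2 h4)]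
    have g6 := mul_le_mul_of_nonneg_left g3 (sub_nonneg.2 h4)
    have g7 := mul_le_mul_of_nonneg_left g4 h3
    have g8 : (1 - χ q) * |dt H0 q p t| + χ q * |d| ≤
        (|C0| + C1) * (1 + H q p t + 2 * |b0| + 2 * |b1|) := by
      have e3 : (|C0| + C1) * (1 + H q p t + 2 * |b0| + 2 * |b1|) =
          (1 - χ q) * ((|C0| + C1) * (1 + H0 q p t + 2 * |b0| + 2 * |b1|)) +
            χ q * ((|C0| + C1) * (1 + B (q, p, t) + 2 * |b0| + 2 * |b1|)) := by
        simp only [hH]
        ring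
      rw [e3]
      linarith
    refine g5.trans (g8.trans ?_)
    rw [mul_assoc]
    refine mul_le_mul_of_nonneg_left ?_ (by positivity)
    have h5 := le_abs_self (H q p t)
    have h6 : 0 ≤ (2 * |b0| + 2 * |b1|) * |H q p t| := by positivity
    nlinarith
  · intro q p t hq hp
    simp only [hH]
    rw [hχ3 q hq, hBc (q, p, t) hp]
    unfold UU
    ring

end Pool.Agent.H105.TU
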