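import Pool.Agent.H105.TU.Boot
import Pool.Agent.TH217.TL.Glue

/-!
The model Hamiltonian `h(x, p, t) + exp (|r|²/2 - p)` on the tube, and a smooth periodic function
which is the identity near `0`.
-/

set_option autoImplicit false

namespace Pool.Agent.H105.TU

open Set Filter Topology
open Pool.Agent.W774.TL Pool.Agent.TH217.TL
open scoped ContDiff

/-- the model Hamiltonian -/
noncomputable def YM {m : ℕ} (q p : Fin (m + 1) → ℝ) (t : ℝ) : ℝ :=
  h (q 0) (p 0) t + Real.exp (rs p / 2 - p 0)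

variable {m : ℕ}

lemma rs_nonneg (p : Fin (m + 1) → ℝ) : 0 ≤ rs p := Finset.sum_nonneg fun _ _ => sq_nonneg _

lemma le_rs (p : Fin (m + 1) → ℝ) (j : Fin m) : p j.succ ^ 2 ≤ rs p :=
  Finset.single_le_sum (f := fun j : Fin m => p j.succ ^ 2) (fun _ _ => sq_nonneg _)
    (Finset.mem_univ j)

lemma rs_cd : ContDiff ℝ (⊤ : ℕ∞) (rs (m := m)) := by
  unfold rs
  exact ContDiff.sum fun j _ => (contDiff_apply ℝ ℝ j.succ).pow 2

lemma h_cd : ContDiff ℝ (⊤ : ℕ∞) (fun q : ℝ × ℝ × ℝ => h q.1 q.2.1 q.2.2) := M2.h_smooth smooth der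

lemma YM_cd : ContDiff ℝ (⊤ : ℕ∞) (UU (YM (m := m))) := by
  have h1 : ContDiff ℝ (⊤ : ℕ∞) (fun z : (Fin (m + 1) → ℝ) × (Fin (m + 1) → ℝ) × ℝ => z.1 0) :=
    (contDiff_apply ℝ ℝ (0 : Fin (m + 1))).comp contDiff_fst
  have h2 : ContDiff ℝ (⊤ : ℕ∞) (fun z : (Fin (m + 1) → ℝ) × (Fin (m + 1) → ℝ) × ℝ => z.2.1 0) :=
    (contDiff_apply ℝ ℝ (0 : Fin (m + 1))).comp (contDiff_fst.comp contDiff_snd)
  have h3 : ContDiff ℝ (⊤ : ℕ∞) (fun z : (Fin (m + 1) → ℝ) × (Fin (m + 1) → ℝ) × ℝ => z.2.2) :=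
    contDiff_snd.comp contDiff_snd
  have h4 : ContDiff ℝ (⊤ : ℕ∞)
      (fun z : (Fin (m + 1) → ℝ) × (Fin (m + 1) → ℝ) × ℝ => rs z.2.1) :=
    rs_cd.comp (contDiff_fst.comp contDiff_snd)
  have h5 := h_cd.comp (h1.prodMk (h2.prodMk h3))
  exact h5.add (((h4.div_const 2).sub h2).exp)

lemma h_per_int (x p t : ℝ) (k l : ℤ) : h (x + k) p (t + l) = h x p t := by
  have h1 : h (x + k) p (t + l) = h x p (t + l) := by
    have := (show Function.Periodic (fun x => h x p (t + l)) 1 from
      fun x => (M2.h_per x p (t + l)).1).int_mul k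
    have := this x
    simpa using this
  have h2 : h x p (t + l) = h x p t := by
    have := (show Function.Periodic (fun t => h x p t) 1 from
      fun t => (M2.h_per x p t).2).int_mul l
    have := this t
    simpa using this
  rw [h1, h2]

lemma YM_per : PerE (UU (YM (m := m))) := by
  intro x v t k l
  unfold UU YM
  simp only
  rw [h_per_int]

lemma hp_hd (x p t : ℝ) :
    HasDerivAt (fun s => hp x s t) (deriv (deriv (fun s => h x s t)) p) p := by
  have e : deriv (fun s => h x s t) = fun s => hp x s t :=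
    funext fun s => (M2.hp_deriv der x s t).deriv
  rw [e]
  apply DifferentiableAt.hasDerivAt
  have h1 := (Pool.Agent.W599.TL.hp_cd smooth der).differentiable (by norm_num)
  have h2 : DifferentiableAt ℝ (fun s : ℝ => ((x, s, t) : ℝ × ℝ × ℝ)) p := by fun_prop
  exact DifferentiableAt.comp p (h1 _) h2

lemma rs_line (p w : Fin (m + 1) → ℝ) (s : ℝ) :
    HasDerivAt (fun s : ℝ => rs (p + s • w))
      (∑ j : Fin m, 2 * (p j.succ + s * w j.succ) * w j.succ) s := by
  unfold rs
  refine HasDerivAt.fun_sum fun j _ => ?_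
  have h1 : HasDerivAt (fun s : ℝ => p j.succ + s * w j.succ) (w j.succ) s := by
    simpa using ((hasDerivAt_id s).mul_const (w j.succ)).const_add (p j.succ)
  have h2 := h1.fun_pow 2
  have e : (fun s : ℝ => (p + s • w) j.succ ^ 2) = fun s : ℝ => (p j.succ + s * w j.succ) ^ 2 := by
    funext s
    simp
  rw [e]
  exact h2.congr_deriv (by push_cast; ring)

lemma YM_H2 (z : (Fin (m + 1) → ℝ) × (Fin (m + 1) → ℝ) × ℝ) (w : Fin (m + 1) → ℝ) (hw : w ≠ 0) :
    0 < H2 (UU (YM (m := m))) z w := by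
  obtain ⟨q, p, t⟩ := z
  set φ : ℝ → ℝ := fun s => rs (p + s • w) / 2 - (p 0 + s * w 0) with hφ
  set φ' : ℝ → ℝ := fun s => (∑ j : Fin m, 2 * (p j.succ + s * w j.succ) * w j.succ) / 2 - w 0
    with hφ'
  have hd1 : ∀ s, HasDerivAt φ (φ' s) s := by
    intro s
    have h1 := (rs_line p w s).div_const 2
    have h2 : HasDerivAt (fun s : ℝ => p 0 + s * w 0) (w 0) s := by
      simpa using ((hasDerivAt_id s).mul_const (w 0)).const_add (p 0)
    exact h1.fun_sub h2
  have hd2 : HasDerivAt φ' (rs w) 0 := by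
    have h1 : HasDerivAt (fun s : ℝ => ∑ j : Fin m, 2 * (p j.succ + s * w j.succ) * w j.succ)
        (∑ j : Fin m, 2 * w j.succ ^ 2) 0 := by
      refine HasDerivAt.fun_sum fun j _ => ?_
      have h1 : HasDerivAt (fun s : ℝ => p j.succ + s * w j.succ) (w j.succ) 0 := by
        simpa using ((hasDerivAt_id (0 : ℝ)).mul_const (w j.succ)).const_add (p j.succ)
      have h2 := (h1.const_mul 2).mul_const (w j.succ)
      exact h2.congr_deriv (by ring)
    have h2 := (h1.div_const 2).sub_const (w 0)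
    refine h2.congr_deriv ?_
    rw [← Finset.mul_sum]
    unfold rs
    ring
  have key : H2 (UU (YM (m := m))) (q, p, t) w =
      deriv (deriv (fun s => h (q 0) s t)) (p 0) * w 0 * w 0 +
        (Real.exp (φ 0) * φ' 0 * φ' 0 + Real.exp (φ 0) * rs w) := by
    refine H2_line (YM_cd.of_le (two_le le_top)) (q, p, t) w
      (fun s => hp (q 0) (p 0 + s * w 0) t * w 0 + Real.exp (φ s) * φ' s) _ ?_ ?_
    · intro s
      have h1 : HasDerivAt (fun s : ℝ => p 0 + s * w 0) (w 0) s := by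
        simpa using ((hasDerivAt_id s).mul_const (w 0)).const_add (p 0)
      have h2 := (M2.hp_deriv der (q 0) (p 0 + s * w 0) t).comp s h1
      have h3 := h2.fun_add (hd1 s).exp
      have e : (fun s : ℝ => UU (YM (m := m)) ((q, p, t) + s • (0, w, 0))) =
          fun s => ((fun s => h (q 0) s t) ∘ fun s : ℝ => p 0 + s * w 0) s + Real.exp (φ s) := by
        funext s
        simp [UU, YM, hφ]
      rw [e]
      exact h3
    · have h1 : HasDerivAt (fun s : ℝ => p 0 + s * w 0) (w 0) 0 := by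
        simpa using ((hasDerivAt_id (0 : ℝ)).mul_const (w 0)).const_add (p 0)
      have h2 : HasDerivAt (fun s => hp (q 0) s t) (deriv (deriv (fun s => h (q 0) s t)) (p 0))
          (p 0 + 0 * w 0) := by
        simpa using hp_hd (q 0) (p 0) t
      have h3 := (h2.comp (0 : ℝ) h1).mul_const (w 0)
      have h4 := (hd1 0).exp.fun_mul hd2
      exact h3.fun_add h4
  rw [key]
  have hpp := M2.hpp_pos der (Pool.Agent.W891.TL.cvx_thm sum_thm) (q 0) (p 0) t
  have h1 : 0 ≤ deriv (deriv (fun s => h (q 0) s t)) (p 0) * w 0 * w 0 := by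
    rw [mul_assoc]
    exact mul_nonneg hpp.le (mul_self_nonneg _)
  have h2 : 0 ≤ Real.exp (φ 0) * φ' 0 * φ' 0 := by
    rw [mul_assoc]
    exact mul_nonneg (Real.exp_pos _).le (mul_self_nonneg _)
  have h3 : 0 ≤ Real.exp (φ 0) * rs w := mul_nonneg (Real.exp_pos _).le (rs_nonneg w)
  by_cases hw0 : w 0 = 0
  · have : ∃ j : Fin m, w j.succ ≠ 0 := by
      by_contra hcon
      push Not at hcon
      exact hw (funext fun i => by
        rcases Fin.eq_zero_or_eq_succ i with h | ⟨j, h⟩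
        · rw [h, hw0]; rfl
        · rw [h, hcon j]; rfl)
    obtain ⟨j, hj⟩ := this
    have h4 : 0 < rs w := lt_of_lt_of_le (by positivity) (le_rs w j)
    have h5 : 0 < Real.exp (φ 0) * rs w := mul_pos (Real.exp_pos _) h4
    linarith
  · have h4 : 0 < deriv (deriv (fun s => h (q 0) s t)) (p 0) * w 0 * w 0 := by
      rw [mul_assoc]
      exact mul_pos hpp (mul_self_pos.2 hw0)
    linarith

lemma YM_sup (K : ℝ) : ∃ B : ℝ, ∀ z : (Fin (m + 1) → ℝ) × (Fin (m + 1) → ℝ) × ℝ,
    K * ‖z.2.1‖ - B ≤ UU (YM (m := m)) z := by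
  set K0 : ℝ := max K 0 with hK0
  have hK00 : 0 ≤ K0 := le_max_right _ _
  obtain ⟨B, hB⟩ := (Pool.Agent.W819.TL.sup_thm sum_thm).1 (K0 + 1)
  refine ⟨|B| + K0 ^ 2, ?_⟩
  rintro ⟨q, p, t⟩
  have h1 := hB (q 0) (p 0) t
  have h2 := Real.add_one_le_exp (rs p / 2 - p 0)
  have h3 := le_abs_self B
  have h4 := le_abs_self (p 0)
  have h5 := rs_nonneg p
  have h6 : K * ‖p‖ ≤ K0 * ‖p‖ := mul_le_mul_of_nonneg_right (le_max_left _ _) (norm_nonneg _)
  have h7 : K0 * ‖p‖ ≤ UU (YM (m := m)) (q, p, t) + |B| + K0 ^ 2 := by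
    obtain ⟨i, hi⟩ : ∃ i, ‖p‖ ≤ |p i| := by
      obtain ⟨i, hi⟩ := Finite.exists_max (fun i => |p i|)
      exact ⟨i, (pi_norm_le_iff_of_nonneg (abs_nonneg _)).2 hi⟩
    refine (mul_le_mul_of_nonneg_left hi hK00).trans ?_
    unfold UU YM
    simp only
    have h8 : 0 ≤ K0 * |p 0| := by positivity
    rcases Fin.eq_zero_or_eq_succ i with h | ⟨j, h⟩
    · rw [h]
      nlinarith [sq_nonneg K0]
    · rw [h]
      have h9 := le_rs p j
      have h10 : K0 * |p j.succ| ≤ K0 ^ 2 + p j.succ ^ 2 / 2 := by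
        have := sq_nonneg (K0 - |p j.succ|)
        have h11 := sq_abs (p j.succ)
        nlinarith [sq_nonneg K0]
      nlinarith
  linarith

/-! ### a smooth periodic function equal to the identity near zero -/

lemma wrap_exists : ∃ φ : ℝ → ℝ, ContDiff ℝ (⊤ : ℕ∞) φ ∧ (∀ (s : ℝ) (k : ℤ), φ (s + k) = φ s) ∧
    ∀ s, |s| ≤ 1 / 8 → φ s = s := by
  set b : ℝ → ℝ := fun s => Real.smoothTransition (2 * Real.cos (2 * Real.pi * s) - 2 / 5) with hb
  refine ⟨fun s => b s * (Real.arcsin (Real.sin (2 * Real.pi * s)) / (2 * Real.pi)), ?_, ?_, ?_⟩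
  · have hcos : ContDiff ℝ (⊤ : ℕ∞) (fun s : ℝ => Real.cos (2 * Real.pi * s)) :=
      Real.contDiff_cos.comp (contDiff_const.mul contDiff_id)
    have hsin : ContDiff ℝ (⊤ : ℕ∞) (fun s : ℝ => Real.sin (2 * Real.pi * s)) :=
      Real.contDiff_sin.comp (contDiff_const.mul contDiff_id)
    have hbs : ContDiff ℝ (⊤ : ℕ∞) b :=
      st_cd.comp ((contDiff_const.mul hcos).sub contDiff_const)
    rw [contDiff_iff_contDiffAt]
    intro s
    by_cases hs : Real.cos (2 * Real.pi * s) < 1 / 5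
    · have h0 : (fun s => b s * (Real.arcsin (Real.sin (2 * Real.pi * s)) / (2 * Real.pi)))
          =ᶠ[𝓝 s] fun _ => (0 : ℝ) := by
        filter_upwards [(hcos.continuous.isOpen_preimage _ isOpen_Iio).mem_nhds hs] with u hu
        have : b u = 0 := Real.smoothTransition.zero_of_nonpos (by
          have : Real.cos (2 * Real.pi * u) < 1 / 5 := hu
          linarith)
        rw [this, zero_mul]
      exact contDiffAt_const.congr_of_eventuallyEq h0
    · have hs1 : Real.sin (2 * Real.pi * s) ^ 2 < 1 := by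
        have := Real.sin_sq_add_cos_sq (2 * Real.pi * s)
        nlinarith
      have hs2 : Real.sin (2 * Real.pi * s) ≠ -1 := by
        intro h
        rw [h] at hs1
        norm_num at hs1
      have hs3 : Real.sin (2 * Real.pi * s) ≠ 1 := by
        intro h
        rw [h] at hs1
        norm_num at hs1
      exact hbs.contDiffAt.mul (((Real.contDiffAt_arcsin hs2 hs3).comp s
        hsin.contDiffAt).div_const _)
  · intro s k
    have e : 2 * Real.pi * (s + k) = 2 * Real.pi * s + k * (2 * Real.pi) := by ring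
    simp only [hb, e, Real.cos_add_int_mul_two_pi, Real.sin_add_int_mul_two_pi]
  · intro s hs
    have hpi := Real.pi_pos
    have h1 := abs_le.1 hs
    have h2 : Real.arcsin (Real.sin (2 * Real.pi * s)) = 2 * Real.pi * s := by
      apply Real.arcsin_sin <;> nlinarith [h1.1, h1.2]
    have h3 : b s = 1 := by
      apply Real.smoothTransition.one_of_one_le
      have h4 : Real.cos (Real.pi / 4) ≤ Real.cos (2 * Real.pi * s) := by
        rw [← Real.cos_abs (2 * Real.pi * s)]
        apply Real.cos_le_cos_of_nonneg_of_le_pi (abs_nonneg _) (by linarith)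
        rw [abs_mul, abs_of_pos (by positivity)]
        nlinarith
      rw [Real.cos_pi_div_four] at h4
      have h5 : (1.41 : ℝ) ≤ Real.sqrt 2 := by
        apply Real.le_sqrt_of_sq_le
        norm_num
      linarith
    simp only [h2, h3, one_mul]
    field_simp

end Pool.Agent.H105.TU
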