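import Pool.Agent.TH217.TL.Fine

/-!
The one-step lemma and the acceleration statement of `Pool.Agent.TH217.TL.Step2` together with a
lower bound for the momentum.
-/

set_option autoImplicit false

namespace Pool.Agent.H105.TU

open Set Filter Topology
open Pool.Agent.W774.TL Pool.Agent.TH217.TL

theorem step4 {K0 : ℕ} (h1 : ∀ (k : ℕ), K0 ≤ k → ∀ (N : ℤ) (τ a p : ℝ),
    (R1 (3 ^ k) τ a p ∨ R3 (3 ^ k) τ a p) →
    |hp (a + k * (τ + (k + 1)) + N) p (τ + (k + 1)) - k - sg (yy (3 ^ k) τ a p)|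
        ≤ 1 / (2 * ((3 : ℝ) ^ k) ^ 2) ∧
    |fo (a + k * (τ + (k + 1)) + N) p (τ + (k + 1))
        - 3 ^ k * ((1 - sg (yy (3 ^ k) τ a p)) * Co a + 3 * sg (yy (3 ^ k) τ a p) * Co (a - τ))| ≤ 1)
    {G A0 : ℝ} (h2 : ∀ A : ℝ, A0 ≤ A → ∀ a p a' p' : ℝ → ℝ,
      Sys A G a p a' p' (-1 / 2) (1 / 2) →
      |a (-1 / 2)| ≤ 1 / 1000 → |p (-1 / 2) - A| ≤ A / 1000 →
      (∀ τ ∈ Icc (-1 / 2 : ℝ) (1 / 2), R1 A τ (a τ) (p τ) ∨ R3 A τ (a τ) (p τ)) ∧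
      |a (1 / 2) - 1 / 2| ≤ 1 / 1000 ∧ |p (1 / 2) - 3 * A| ≤ 3 * A / 1000)
    {x p x' p' : ℝ → ℝ} {k : ℕ} (hs : Approx G x p x' p' k)
    (hk : K0 ≤ k) (hA : A0 ≤ (3 : ℝ) ^ k) {N : ℤ} (hB : Pool.Agent.W764.TL.Box x p k N) :
    (∀ t ∈ Icc ((k : ℝ) + 1 / 2) (k + 3 / 2), (k : ℝ) - 1 ≤ x' t ∧ 9 / 10 * 3 ^ k ≤ p t) ∧
      Pool.Agent.W764.TL.Box x p (k + 1) (N - (k + 1)) := by
  set a : ℝ → ℝ := fun τ => x (τ + (k + 1)) - k * (τ + (k + 1)) - N with ha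
  set pp : ℝ → ℝ := fun τ => p (τ + (k + 1)) with hpp
  have hxa : ∀ τ : ℝ, a τ + k * (τ + (k + 1)) + N = x (τ + (k + 1)) := by
    intro τ
    simp only [ha]
    ring
  have hin : ∀ τ ∈ Icc (-1 / 2 : ℝ) (1 / 2), τ + ((k : ℝ) + 1) ∈
      Icc ((k : ℝ) + 1 / 2) (k + 3 / 2) := by
    intro τ hτ
    constructor
    · linarith [hτ.1]
    · linarith [hτ.2]
  have hbound : ∀ τ ∈ Icc (-1 / 2 : ℝ) (1 / 2),
      (R1 (3 ^ k) τ (a τ) (pp τ) ∨ R3 (3 ^ k) τ (a τ) (pp τ)) →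
      |x' (τ + (k + 1)) - k - sg (yy (3 ^ k) τ (a τ) (pp τ))| ≤ 1 / ((3 : ℝ) ^ k) ^ 2 := by
    intro τ hτ hR
    obtain ⟨-, -, d3, -⟩ := hs _ (hin τ hτ)
    obtain ⟨f1, -⟩ := h1 k hk N τ (a τ) (pp τ) hR
    rw [hxa τ] at f1
    have e1 : x' (τ + (k + 1)) - k - sg (yy (3 ^ k) τ (a τ) (pp τ)) =
        (x' (τ + (k + 1)) - hp (x (τ + (k + 1))) (p (τ + (k + 1))) (τ + (k + 1))) +
        (hp (x (τ + (k + 1))) (pp τ) (τ + (k + 1)) - k - sg (yy (3 ^ k) τ (a τ) (pp τ))) := by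
      simp only [hpp]
      ring
    rw [e1]
    refine (abs_add_le _ _).trans ((add_le_add d3 f1).trans (le_of_eq ?_))
    have : ((3 : ℝ) ^ k) ^ 2 ≠ 0 := by positivity
    field_simp
    norm_num
  have hSys : Sys (3 ^ k) G a pp (fun τ => x' (τ + (k + 1)) - k)
      (fun τ => p' (τ + (k + 1))) (-1 / 2) (1 / 2) := by
    intro τ hτ
    obtain ⟨d1, d2, -, d4⟩ := hs _ (hin τ hτ)
    refine ⟨?_, ?_, ?_⟩
    · have e1 : HasDerivAt (fun s : ℝ => x (s + (k + 1))) _ τ := d1.comp_add_const τ ((k : ℝ) + 1)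
      have e2 : HasDerivAt (fun s : ℝ => (k : ℝ) * (s + (k + 1))) ((k : ℝ) * 1) τ :=
        ((hasDerivAt_id τ).add_const _).const_mul _
      have e3 := (e1.sub e2).sub_const (N : ℝ)
      rw [mul_one] at e3
      exact e3
    · exact d2.comp_add_const τ ((k : ℝ) + 1)
    · intro hR
      refine ⟨hbound τ hτ hR, ?_⟩
      obtain ⟨-, f2⟩ := h1 k hk N τ (a τ) (pp τ) hR
      rw [hxa τ] at f2
      have f3 : p' (τ + (k + 1)) -
          3 ^ k * ((1 - sg (yy (3 ^ k) τ (a τ) (pp τ))) * Co (a τ) +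
            3 * sg (yy (3 ^ k) τ (a τ) (pp τ)) * Co (a τ - τ)) =
          (fo (x (τ + (k + 1))) (pp τ) (τ + (k + 1)) -
          3 ^ k * ((1 - sg (yy (3 ^ k) τ (a τ) (pp τ))) * Co (a τ) +
            3 * sg (yy (3 ^ k) τ (a τ) (pp τ)) * Co (a τ - τ))) +
          (p' (τ + (k + 1)) - fo (x (τ + (k + 1))) (p (τ + (k + 1))) (τ + (k + 1))) := by
        simp only [hpp]
        ring
      rw [f3]
      exact (abs_add_le _ _).trans (add_le_add f2 d4)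
  have hm : (-1 / 2 : ℝ) + (k + 1) = k + 1 / 2 := by ring
  have hi1 : |a (-1 / 2)| ≤ 1 / 1000 := by
    have : a (-1 / 2) = x ((k : ℝ) + 1 / 2) - k * (k + 1 / 2) - N := by
      simp only [ha]
      rw [hm]
    rw [this]
    exact hB.1
  have hi2 : |pp (-1 / 2) - 3 ^ k| ≤ 3 ^ k / 1000 := by
    have : pp (-1 / 2) = p ((k : ℝ) + 1 / 2) := by
      simp only [hpp]
      rw [hm]
    rw [this]
    exact hB.2
  obtain ⟨c1, c2, c3⟩ := h2 (3 ^ k) hA a pp _ _ hSys hi1 hi2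
  refine ⟨?_, ?_, ?_⟩
  · intro t ht
    obtain ⟨ht1, ht2⟩ := ht
    have hτ : t - (k + 1) ∈ Icc (-1 / 2 : ℝ) (1 / 2) := by
      constructor <;> linarith
    have f1 := hbound _ hτ (c1 _ hτ)
    simp only [sub_add_cancel] at f1
    have hs0 := Pool.Agent.W764.TL.sg_nonneg (yy (3 ^ k) (t - (k + 1)) (a (t - (k + 1)))
      (pp (t - (k + 1))))
    have h3 : 1 / ((3 : ℝ) ^ k) ^ 2 ≤ 1 := by
      rw [div_le_one (by positivity)]
      exact one_le_pow₀ (one_le_pow₀ (by norm_num))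
    have h4 := (abs_le.1 f1).1
    refine ⟨by linarith, ?_⟩
    have hA1 : (0 : ℝ) < 3 ^ k := by positivity
    have hpt : pp (t - (k + 1)) = p t := by
      simp only [hpp]
      congr 1
      ring
    rcases c1 _ hτ with hR | hR
    · obtain ⟨r1, -, -, r4⟩ := hR
      have := (abs_le.1 r4).1
      rw [hpt] at this
      nlinarith
    · obtain ⟨r1, -, -, r4⟩ := hR
      have := (abs_le.1 r4).1
      rw [hpt] at this
      nlinarith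
  · have hx : (((k + 1 : ℕ) : ℝ)) + 1 / 2 = 1 / 2 + ((k : ℝ) + 1) := by
      push_cast
      ring
    have : x (((k + 1 : ℕ) : ℝ) + 1 / 2) - ((k + 1 : ℕ) : ℝ) * (((k + 1 : ℕ) : ℝ) + 1 / 2) -
        ((N - (k + 1) : ℤ) : ℝ) = a (1 / 2) - 1 / 2 := by
      rw [hx]
      simp only [ha]
      push_cast
      ring
    rw [this]
    exact c2
  · have hx : (((k + 1 : ℕ) : ℝ)) + 1 / 2 = 1 / 2 + ((k : ℝ) + 1) := by
      push_cast
      ring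
    have h5 : p (((k + 1 : ℕ) : ℝ) + 1 / 2) = pp (1 / 2) := by
      rw [hx]
    rw [h5, pow_succ, mul_comm ((3 : ℝ) ^ k) 3]
    exact c3

/-- approximate solutions accelerate as long as they are approximate solutions. -/
theorem core4 (G : ℝ) (hG : 0 ≤ G) : ∃ k0 : ℕ, ∀ k1 : ℕ, k0 ≤ k1 → ∀ K : ℕ,
    ∀ x p x' p' : ℝ → ℝ, (∀ k : ℕ, k1 ≤ k → k ≤ K → Approx G x p x' p' k) →
    ∀ N : ℤ, |x (k1 + 1 / 2) - k1 * (k1 + 1 / 2) - N| ≤ 1 / 1000 →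
    |p (k1 + 1 / 2) - 3 ^ k1| ≤ 3 ^ k1 / 1000 →
    ∀ k : ℕ, k1 ≤ k → k ≤ K → ∀ t ∈ Icc ((k : ℝ) + 1 / 2) (k + 3 / 2),
      (k : ℝ) - 1 ≤ x' t ∧ 9 / 10 * 3 ^ k ≤ p t := by
  obtain ⟨K0, h1⟩ := two2 sum_thm Pool.Agent.W509.TL.DOM1.dom1_thm Pool.Agent.W234.TL.dom3_thm
  obtain ⟨A0, h2⟩ := Pool.Agent.W774.TL.step G hG
  obtain ⟨m, hm⟩ := pow_unbounded_of_one_lt A0 (by norm_num : (1 : ℝ) < 3)
  refine ⟨max K0 m, ?_⟩
  intro k1 hk1 K x p x' p' hs N hN1 hN2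
  have key : ∀ k : ℕ, k1 ≤ k → k ≤ K → ∃ N : ℤ, Pool.Agent.W764.TL.Box x p k N := by
    intro k hk
    induction k, hk using Nat.le_induction with
    | base => exact fun _ => ⟨N, hN1, hN2⟩
    | succ k hk ih =>
      intro hkK
      obtain ⟨N', hN'⟩ := ih (by omega)
      exact ⟨_, (step4 h1 h2 (hs k hk (by omega)) ((le_max_left _ _).trans (hk1.trans hk))
        (hm.le.trans (pow_le_pow_right₀ (by norm_num)
          ((le_max_right _ _).trans (hk1.trans hk)))) hN').2⟩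
  intro k hk hkK t ht
  obtain ⟨N', hN'⟩ := key k hk hkK
  exact (step4 h1 h2 (hs k hk hkK) ((le_max_left _ _).trans (hk1.trans hk))
    (hm.le.trans (pow_le_pow_right₀ (by norm_num)
      ((le_max_right _ _).trans (hk1.trans hk)))) hN').1 t ht


end Pool.Agent.H105.TU
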