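import Pool.Agent.H105.TU.Model

/-!
The time derivative of the one-dimensional Hamiltonian is bounded by a multiple of the Hamiltonian.
-/

set_option autoImplicit false

namespace Pool.Agent.H105.TU

open Set Filter Topology
open Pool.Agent.W774.TL Pool.Agent.W740.TL

theorem hasDerivAt_E_t (j : ℤ) (x p t : ℝ) :
    HasDerivAt (fun s => E j x p s) ((j : ℝ) * (3 : ℝ) ^ j.natAbs * Co (x - j * t) * E j x p t) t := by
  have h0 : HasDerivAt (fun s : ℝ => x - j * s) (-((j : ℝ) * 1)) t :=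
    ((hasDerivAt_id t).const_mul (j : ℝ)).const_sub _
  have h1 : HasDerivAt (fun s : ℝ => S (x - j * s)) (Co (x - j * t) * (-((j : ℝ) * 1))) t := by
    have h := HasDerivAt.comp t (h₂ := S) (hasDerivAt_S (x - j * t)) h0
    exact h
  have h2 : HasDerivAt (fun s : ℝ => (j : ℝ) * p - V j x s)
      (-((3 : ℝ) ^ j.natAbs * (Co (x - j * t) * (-((j : ℝ) * 1))))) t :=
    ((h1.const_add (3 / 4)).const_mul ((3 : ℝ) ^ j.natAbs)).const_sub _
  have h3 := h2.exp
  have h4 : Real.exp ((j : ℝ) * p - V j x t) *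
      (-((3 : ℝ) ^ j.natAbs * (Co (x - j * t) * (-((j : ℝ) * 1))))) =
      (j : ℝ) * (3 : ℝ) ^ j.natAbs * Co (x - j * t) * E j x p t := by
    unfold E
    ring
  rw [h4] at h3
  exact h3

theorem tder (x p t : ℝ) : HasDerivAt (fun s => ∑' j : ℤ, E j x p s)
    (∑' j : ℤ, (j : ℝ) * (3 : ℝ) ^ j.natAbs * Co (x - j * t) * E j x p t) t := by
  obtain ⟨u, hu, hb⟩ := sum_thm 2 |p|
  have h0 : Summable (fun j : ℤ => E j x p t) := by
    have h := sum_pow sum_thm 0 x p t
    simp only [pow_zero, one_mul] at h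
    exact h
  refine hasDerivAt_tsum_of_isPreconnected (g := fun (j : ℤ) s => E j x p s)
    (g' := fun (j : ℤ) s => (j : ℝ) * (3 : ℝ) ^ j.natAbs * Co (x - j * s) * E j x p s) hu isOpen_univ
    isPreconnected_univ (fun j s _ => hasDerivAt_E_t j x p s) (fun j s _ => ?_) (mem_univ t) h0
    (mem_univ t)
  refine le_trans ?_ (hb j x p s le_rfl)
  have hw : (0 : ℝ) < (3 : ℝ) ^ j.natAbs := by positivity
  rw [norm_mul, norm_mul, norm_mul, Real.norm_eq_abs, Real.norm_eq_abs, Real.norm_eq_abs,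
    Real.norm_eq_abs, abs_of_pos (E_pos j x p s), abs_of_pos hw]
  refine mul_le_mul_of_nonneg_right ?_ (E_pos j x p s).le
  have h1 := abs_le_w j
  have h2 := abs_Co (x - j * s)
  have h3 := abs_nonneg (j : ℝ)
  calc |(j : ℝ)| * 3 ^ j.natAbs * |Co (x - j * s)| ≤ |(j : ℝ)| * 3 ^ j.natAbs * 1 :=
        mul_le_mul_of_nonneg_left h2 (by positivity)
    _ ≤ 3 ^ j.natAbs * 3 ^ j.natAbs := by
        rw [mul_one]
        exact mul_le_mul_of_nonneg_right h1 hw.le
    _ = ((3 : ℝ) ^ j.natAbs) ^ 2 := by ring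

/-- lower bounds for `h`. -/
lemma h_lower (x p t : ℝ) (k : ℤ) : (k : ℝ) * p - V k x t ≤ h x p t := by
  have hZ := (der x p t).1
  have h0 : Summable (fun j : ℤ => E j x p t) := by
    have h := sum_pow sum_thm 0 x p t
    simp only [pow_zero, one_mul] at h
    exact h
  have h1 : E k x p t ≤ Z x p t := h0.le_tsum k fun j _ => (E_pos j x p t).le
  unfold h
  rw [Real.le_log_iff_exp_le hZ]
  exact h1

lemma V_upper (k : ℤ) (x t : ℝ) : V k x t ≤ (3 : ℝ) ^ k.natAbs := by
  unfold V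
  have h1 := (abs_le.1 (Pool.Agent.W583.TL.S_bound (x - k * t))).2
  have h2 : (0 : ℝ) < (3 : ℝ) ^ k.natAbs := by positivity
  nlinarith

/-- lower bound for `h` with the sign of `p`. -/
lemma h_lower_nat (x p t : ℝ) (k : ℕ) : (k : ℝ) * |p| - 3 ^ k ≤ h x p t := by
  rcases le_total 0 p with hp | hp
  · have h1 := h_lower x p t (k : ℤ)
    have h2 := V_upper (k : ℤ) x t
    rw [abs_of_nonneg hp]
    simp only [Int.natAbs_natCast, Int.cast_natCast] at h1 h2
    linarith
  · have h1 := h_lower x p t (-(k : ℤ))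
    have h2 := V_upper (-(k : ℤ)) x t
    rw [abs_of_nonpos hp]
    simp only [Int.natAbs_neg, Int.natAbs_natCast, Int.cast_neg, Int.cast_natCast] at h1 h2
    linarith

lemma caseA (x p t : ℝ) (n : ℕ) (hn : (3 : ℝ) ^ n ≤ 6 * |p|) :
    (n : ℝ) * |p| ≤ 4 * |h x p t| + 12 := by
  have hp := abs_nonneg p
  have h0 := le_abs_self (h x p t)
  rcases le_or_gt n 4 with h4 | h4
  · have h1 := h_lower_nat x p t 1
    have h2 : (n : ℝ) ≤ 4 := by exact_mod_cast h4
    norm_num at h1
    nlinarith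
  · obtain ⟨l, rfl⟩ : ∃ l, n = l + 3 := ⟨n - 3, by omega⟩
    have h1 := h_lower_nat x p t l
    have h2 : (3 : ℝ) ^ l * 27 ≤ 6 * |p| := by
      have : (3 : ℝ) ^ (l + 3) = 3 ^ l * 27 := by ring
      rw [this] at hn
      exact hn
    have h3 : (2 : ℝ) ≤ l := by
      have : 2 ≤ l := by omega
      exact_mod_cast this
    push_cast
    nlinarith

lemma E_step_t (x p t : ℝ) (j j' : ℤ) (hj : j.natAbs = j'.natAbs + 1)
    (hd : |((j : ℝ) - j')| ≤ 1) :
    |(j : ℝ)| * (3 : ℝ) ^ j.natAbs * E j x p t ≤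
      6 * (4 * |h x p t| + 12) * E j x p t + 139 * E j' x p t := by
  have hEj : 0 < E j x p t := Real.exp_pos _
  have hEj' : 0 < E j' x p t := Real.exp_pos _
  have hh := abs_nonneg (h x p t)
  have hjn : |(j : ℝ)| = (j.natAbs : ℝ) := by rw [Nat.cast_natAbs, Int.cast_abs]
  rcases le_total ((3 : ℝ) ^ j.natAbs) (6 * |p|) with hA | hB
  · have h1 := caseA x p t j.natAbs hA
    have h2 : |(j : ℝ)| * (3 : ℝ) ^ j.natAbs ≤ 6 * (4 * |h x p t| + 12) := by
      rw [hjn]
      calc (j.natAbs : ℝ) * 3 ^ j.natAbs ≤ j.natAbs * (6 * |p|) :=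
            mul_le_mul_of_nonneg_left hA (Nat.cast_nonneg _)
        _ = 6 * (j.natAbs * |p|) := by ring
        _ ≤ _ := by linarith
    have h3 := mul_le_mul_of_nonneg_right h2 hEj.le
    linarith [mul_pos (by norm_num : (0 : ℝ) < 139) hEj']
  · obtain ⟨u, hu⟩ : ∃ u : ℝ, (3 : ℝ) ^ j.natAbs = u := ⟨_, rfl⟩
    have hu' : (3 : ℝ) ^ j'.natAbs = u / 3 := by
      rw [← hu, hj, pow_succ]; ring
    have hupos : 0 < u := by rw [← hu]; positivity
    have hju : |(j : ℝ)| ≤ u := by rw [← hu]; exact abs_le_w j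
    rw [hu] at hB ⊢
    have h1 : E j x p t = E j' x p t *
        Real.exp (((j : ℝ) - j') * p - (V j x t - V j' x t)) := by
      unfold E
      rw [← Real.exp_add]
      congr 1
      ring
    have hV : u * (3 / 4 - 4 / 25) ≤ V j x t := by
      unfold V
      rw [hu]
      have := (abs_le.1 (Pool.Agent.W583.TL.S_bound (x - j * t))).1
      exact mul_le_mul_of_nonneg_left (by linarith) hupos.le
    have hV' : V j' x t ≤ u / 3 * (3 / 4 + 4 / 25) := by
      unfold V
      rw [hu']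
      have := (abs_le.1 (Pool.Agent.W583.TL.S_bound (x - j' * t))).2
      exact mul_le_mul_of_nonneg_left (by linarith) (by positivity)
    have h2 : ((j : ℝ) - j') * p - (V j x t - V j' x t) ≤ -(3 / 25 * u) := by
      have h4 : ((j : ℝ) - j') * p ≤ |p| := by
        calc ((j : ℝ) - j') * p ≤ |((j : ℝ) - j') * p| := le_abs_self _
          _ = |(j : ℝ) - j'| * |p| := abs_mul _ _
          _ ≤ 1 * |p| := mul_le_mul_of_nonneg_right hd (abs_nonneg _)
          _ = |p| := one_mul _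
      linarith
    have h3 : u * u * Real.exp (-(3 / 25 * u)) ≤ 139 := by
      have h5 := Real.quadratic_le_exp_of_nonneg (x := 3 / 25 * u) (by positivity)
      have h6 : Real.exp (-(3 / 25 * u)) * Real.exp (3 / 25 * u) = 1 := by
        rw [← Real.exp_add, neg_add_cancel, Real.exp_zero]
      have h7 := Real.exp_pos (-(3 / 25 * u))
      have h8 := mul_le_mul_of_nonneg_left h5 h7.le
      rw [h6] at h8
      nlinarith [mul_pos h7 hupos]
    calc |(j : ℝ)| * u * E j x p t ≤ u * u * E j x p t :=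
          mul_le_mul_of_nonneg_right (mul_le_mul_of_nonneg_right hju hupos.le) hEj.le
      _ = E j' x p t * (u * u * Real.exp (((j : ℝ) - j') * p - (V j x t - V j' x t))) := by
          rw [h1]; ring
      _ ≤ E j' x p t * (u * u * Real.exp (-(3 / 25 * u))) := by
          apply mul_le_mul_of_nonneg_left _ hEj'.le
          exact mul_le_mul_of_nonneg_left (Real.exp_le_exp.2 h2) (by positivity)
      _ ≤ E j' x p t * 139 := mul_le_mul_of_nonneg_left h3 hEj'.le
      _ = 139 * E j' x p t := mul_comm _ _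
      _ ≤ _ := by
        have : 0 ≤ 6 * (4 * |h x p t| + 12) * E j x p t := by positivity
        linarith

lemma E_bd_t (x p t : ℝ) (j : ℤ) :
    |(j : ℝ)| * (3 : ℝ) ^ j.natAbs * E j x p t ≤
      6 * (4 * |h x p t| + 12) * E j x p t + 139 * E (j - 1) x p t + 139 * E (j + 1) x p t := by
  have hE : 0 < E j x p t := Real.exp_pos _
  have hE1 : 0 < E (j - 1) x p t := Real.exp_pos _
  have hE2 : 0 < E (j + 1) x p t := Real.exp_pos _
  have hh := abs_nonneg (h x p t)
  rcases lt_trichotomy j 0 with h | h | h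
  · have := E_step_t x p t j (j + 1) (by omega) (by push_cast; norm_num)
    linarith
  · subst h
    simp only [Int.cast_zero, abs_zero, zero_mul]
    positivity
  · have := E_step_t x p t j (j - 1) (by omega) (by push_cast; norm_num)
    linarith

theorem ht_bound (x p t : ℝ) : ∃ d : ℝ, HasDerivAt (fun s => h x p s) d t ∧
    |d| ≤ 400 * (1 + |h x p t|) := by
  have hpos : ∀ j : ℤ, 0 < E j x p t := fun j => Real.exp_pos _
  have hpow : ∀ j : ℤ, (1 : ℝ) ≤ (3 : ℝ) ^ j.natAbs := fun j => one_le_pow₀ (by norm_num)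
  obtain ⟨u, hu, hb⟩ := sum_thm 2 |p|
  have sum2 : Summable (fun j : ℤ => |(j : ℝ)| * (3 : ℝ) ^ j.natAbs * E j x p t) := by
    refine Summable.of_nonneg_of_le (fun j => ?_) (fun j => ?_) hu
    · exact mul_nonneg (by positivity) (hpos j).le
    · refine le_trans ?_ (hb j x p t le_rfl)
      refine mul_le_mul_of_nonneg_right ?_ (hpos j).le
      rw [sq]
      exact mul_le_mul_of_nonneg_right (abs_le_w j) (by positivity)
  have sumE : Summable (fun j : ℤ => E j x p t) := by
    have h := sum_pow sum_thm 0 x p t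
    simp only [pow_zero, one_mul] at h
    exact h
  have hZ : 0 < Z x p t := (der x p t).1
  have sE1 : Summable (fun j : ℤ => E (j - 1) x p t) :=
    (Equiv.subRight (1 : ℤ)).summable_iff.2 sumE
  have sE2 : Summable (fun j : ℤ => E (j + 1) x p t) :=
    (Equiv.addRight (1 : ℤ)).summable_iff.2 sumE
  have tE1 : ∑' j : ℤ, E (j - 1) x p t = Z x p t :=
    (Equiv.subRight (1 : ℤ)).tsum_eq (fun j => E j x p t)
  have tE2 : ∑' j : ℤ, E (j + 1) x p t = Z x p t :=
    (Equiv.addRight (1 : ℤ)).tsum_eq (fun j => E j x p t)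
  have hM : ∑' j : ℤ, |(j : ℝ)| * (3 : ℝ) ^ j.natAbs * E j x p t ≤
      (6 * (4 * |h x p t| + 12) + 278) * Z x p t := by
    have s1 := sumE.mul_left (6 * (4 * |h x p t| + 12))
    have s2 := sE1.mul_left (139 : ℝ)
    have s3 := sE2.mul_left (139 : ℝ)
    have h2 := sum2.tsum_le_tsum (E_bd_t x p t) ((s1.add s2).add s3)
    rw [(s1.add s2).tsum_add s3, s1.tsum_add s2, tsum_mul_left, tsum_mul_left, tsum_mul_left,
      tE1, tE2] at h2
    have h3 : ∑' j : ℤ, E j x p t = Z x p t := rfl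
    rw [h3] at h2
    linarith
  have hd : HasDerivAt (fun s => Z x p s)
      (∑' j : ℤ, (j : ℝ) * (3 : ℝ) ^ j.natAbs * Co (x - j * t) * E j x p t) t := tder x p t
  refine ⟨_, hd.log hZ.ne', ?_⟩
  rw [abs_div, abs_of_pos hZ, div_le_iff₀ hZ]
  have hf : ∀ j : ℤ, ‖(j : ℝ) * (3 : ℝ) ^ j.natAbs * Co (x - j * t) * E j x p t‖ ≤
      |(j : ℝ)| * (3 : ℝ) ^ j.natAbs * E j x p t := by
    intro j
    rw [norm_mul, norm_mul, norm_mul, Real.norm_eq_abs, Real.norm_eq_abs, Real.norm_eq_abs,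
      Real.norm_eq_abs, abs_of_pos (hpos j), abs_of_pos (by positivity : (0 : ℝ) < 3 ^ j.natAbs)]
    refine mul_le_mul_of_nonneg_right ?_ (hpos j).le
    exact mul_le_of_le_one_right (by positivity) (abs_Co _)
  have sf := Summable.of_nonneg_of_le (fun j => norm_nonneg _) hf sum2
  have h2 : |∑' j : ℤ, (j : ℝ) * (3 : ℝ) ^ j.natAbs * Co (x - j * t) * E j x p t| ≤
      ∑' j : ℤ, |(j : ℝ)| * (3 : ℝ) ^ j.natAbs * E j x p t := by
    calc _ ≤ ∑' j : ℤ, ‖(j : ℝ) * (3 : ℝ) ^ j.natAbs * Co (x - j * t) * E j x p t‖ :=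
          norm_tsum_le_tsum_norm sf
      _ ≤ _ := sf.tsum_le_tsum hf sum2
  refine h2.trans (hM.trans (mul_le_mul_of_nonneg_right ?_ hZ.le))
  have := abs_nonneg (h x p t)
  linarith

end Pool.Agent.H105.TU
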